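import Pool.Agent.H95.GF.Count

/-!
The base case: `u` products of subspaces span a tensor product of two spaces, over a large finite
field.
-/

namespace Pool.Agent.H95.GF

open Module

section Finite

variable {F : Type} [Field F] [Fintype F]

theorem expo_le {a d α e c j M : ℕ} (hjc : j ≤ c) (hje : j ≤ e) (hca : c ≤ a) (hcd : c ≤ d)
    (h2 : M ≤ (c - j) * (e - j) + j * α) :
    d * j + (d - c + j) * (e - j) + (a - j) * α ≤ d * e + a * α - M := by
  obtain ⟨x, hx⟩ := Nat.exists_eq_add_of_le hjc
  obtain ⟨y, hy⟩ := Nat.exists_eq_add_of_le hje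
  obtain ⟨z, hz⟩ := Nat.exists_eq_add_of_le hca
  obtain ⟨t, ht⟩ := Nat.exists_eq_add_of_le hcd
  have e1 : c - j = x := by omega
  have e2 : e - j = y := by omega
  have e3 : d - c + j = t + j := by omega
  have e4 : a - j = x + z := by omega
  rw [e1, e2] at h2
  rw [e2, e3, e4]
  have h3 : d * j + (t + j) * y + (x + z) * α + (x * y + j * α) = d * e + a * α := by
    rw [hz, ht, hy, hx]
    ring
  omega

/-- The condition that `φ` vanishes on the product of the spans of `x.1` and `x.2`. -/
def Rel {a d α e : ℕ} (φ : Fin a → Fin d → F)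
    (x : (Fin α → Fin a → F) × (Fin e → Fin d → F)) : Prop :=
  ∀ k₀ k, ∑ i, x.1 k₀ i * (∑ l, φ i l * x.2 k l) = 0

theorem card_pairs_le {a d α e c M : ℕ} (φ : Fin a → Fin d → F) (hc : (Matrix.of φ).rank = c)
    (hM : ∀ j, j ≤ c → j ≤ e → M ≤ (c - j) * (e - j) + j * α) :
    Nat.card {x : (Fin α → Fin a → F) × (Fin e → Fin d → F) // Rel φ x} ≤
      2 ^ e * Fintype.card F ^ (d * e + a * α - M) := by
  classical
  set f : (Fin d → F) →ₗ[F] (Fin a → F) := (Matrix.of φ).mulVecLin with hf
  have hfa : ∀ (w : Fin d → F) (i : Fin a), f w i = ∑ l, φ i l * w l := by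
    intro w i
    rw [hf, Matrix.mulVecLin_apply, Matrix.mulVec, dotProduct]
    rfl
  have hrk : finrank F (LinearMap.range f) = c := hc
  have hca : c ≤ a := by
    rw [← hc]
    exact (Matrix.rank_le_card_height _).trans (by rw [Fintype.card_fin])
  have hcd : c ≤ d := by
    rw [← hc]
    exact (Matrix.rank_le_card_width _).trans (by rw [Fintype.card_fin])
  let S : Finset (Fin e) → Type := fun J => {w : Fin e → Fin d → F //
    (∀ k, f (w k) ∈ Submodule.span F (Set.range fun l : ↥J => f (w l))) ∧
      LinearIndependent F (fun l : ↥J => f (w l))}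
  let O : (J : Finset (Fin e)) → S J → Type := fun J w =>
    {x : Fin a → F // ∀ l : ↥J, ∑ i, x i * f (w.1 l) i = 0}
  have hJ : ∀ w : Fin e → Fin d → F, ∃ J : Finset (Fin e),
      (∀ k, f (w k) ∈ Submodule.span F (Set.range fun l : ↥J => f (w l))) ∧
      LinearIndependent F (fun l : ↥J => f (w l)) := fun w => exists_indep (F := F) fun k => f (w k)
  choose Jw hJw using hJ
  let g : {x : (Fin α → Fin a → F) × (Fin e → Fin d → F) // Rel φ x} →
      Σ J : Finset (Fin e), Σ w : S J, (Fin α → O J w) := fun x =>
    ⟨Jw x.1.2, ⟨x.1.2, hJw x.1.2⟩, fun k₀ => ⟨x.1.1 k₀, fun l => by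
      have h1 := x.2 k₀ l
      simp only [← hfa] at h1
      exact h1⟩⟩
  have hg : Function.Injective g := by
    have key : ∀ y y' : Σ J : Finset (Fin e), Σ w : S J, (Fin α → O J w), y = y' →
        (y.2.1.1 = y'.2.1.1 ∧ (fun k₀ => (y.2.2 k₀).1) = fun k₀ => (y'.2.2 k₀).1) := by
      rintro y y' rfl
      exact ⟨rfl, rfl⟩
    rintro ⟨⟨v, w⟩, hx⟩ ⟨⟨v', w'⟩, hx'⟩ h
    obtain ⟨h1, h2⟩ := key _ _ h
    apply Subtype.ext
    exact Prod.ext h2 h1
  have : ∀ J (w : S J), Finite (O J w) := fun J w => by
    change Finite {x : Fin a → F // ∀ l : ↥J, ∑ i, x i * f (w.1 l) i = 0}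
    infer_instance
  have : ∀ J, Finite (S J) := fun J => by
    change Finite {w : Fin e → Fin d → F //
      (∀ k, f (w k) ∈ Submodule.span F (Set.range fun l : ↥J => f (w l))) ∧
      LinearIndependent F (fun l : ↥J => f (w l))}
    infer_instance
  have hfin : ∀ J, Fintype (S J) := fun J => Fintype.ofFinite _
  refine (Nat.card_le_card_of_injective g hg).trans ?_
  rw [Nat.card_sigma]
  have hterm : ∀ J : Finset (Fin e), Nat.card (Σ w : S J, (Fin α → O J w)) ≤
      Fintype.card F ^ (d * e + a * α - M) := by
    intro J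
    rw [Nat.card_sigma]
    by_cases hne : Nonempty (S J)
    · have hjc : J.card ≤ c := by
        obtain ⟨w⟩ := hne
        have h1 := w.2.2
        have h2 : LinearIndependent F (fun l : ↥J => (⟨f (w.1 l), LinearMap.mem_range_self f _⟩ :
            LinearMap.range f)) := by
          apply LinearIndependent.of_comp (LinearMap.range f).subtype
          exact h1
        have h3 := h2.fintype_card_le_finrank
        rw [Fintype.card_coe, hrk] at h3
        exact h3
      have hje : J.card ≤ e := by
        have := Finset.card_le_univ J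
        rwa [Fintype.card_fin] at this
      have hO : ∀ w : S J, Nat.card (Fin α → O J w) ≤
          (Fintype.card F ^ (a - J.card)) ^ α := by
        intro w
        rw [Nat.card_fun, Nat.card_eq_fintype_card (α := Fin α), Fintype.card_fin]
        apply Nat.pow_le_pow_left
        exact card_orthogonal_le (by rw [Fintype.card_coe]) _ w.2.2
      have hS : Nat.card (S J) ≤ Fintype.card F ^ (d * J.card + (d - c + J.card) * (e - J.card)) := by
        have h1 := card_family_le (F := F) (V := Fin d → F) f (ι := Fin e) J
        rw [Module.finrank_fintype_fun_eq_card, Fintype.card_fin, hrk, Fintype.card_fin] at h1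
        refine le_trans ?_ h1
        apply Nat.card_le_card_of_injective (f := fun w : S J => (⟨w.1, w.2.1⟩ :
          {w : Fin e → Fin d → F // ∀ k, f (w k) ∈
            Submodule.span F (Set.range fun l : ↥J => f (w l))}))
        intro w w' h
        simp only [Subtype.mk.injEq] at h
        exact Subtype.ext h
      calc ∑ w : S J, Nat.card (Fin α → O J w) ≤
            ∑ _w : S J, (Fintype.card F ^ (a - J.card)) ^ α := Finset.sum_le_sum fun w _ => hO w
        _ = Nat.card (S J) * (Fintype.card F ^ (a - J.card)) ^ α := by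
            rw [Finset.sum_const, Finset.card_univ, smul_eq_mul, Nat.card_eq_fintype_card]
        _ ≤ Fintype.card F ^ (d * J.card + (d - c + J.card) * (e - J.card)) *
            (Fintype.card F ^ (a - J.card)) ^ α := Nat.mul_le_mul_right _ hS
        _ = Fintype.card F ^ (d * J.card + (d - c + J.card) * (e - J.card) +
            (a - J.card) * α) := by
            rw [← pow_mul, ← pow_add]
        _ ≤ Fintype.card F ^ (d * e + a * α - M) := by
            apply Nat.pow_le_pow_right Fintype.card_pos
            exact expo_le hjc hje hca hcd (hM J.card hjc hje)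
    · rw [not_nonempty_iff] at hne
      rw [Finset.univ_eq_empty, Finset.sum_empty]
      exact Nat.zero_le _
  calc ∑ J : Finset (Fin e), Nat.card (Σ w : S J, (Fin α → O J w)) ≤
        ∑ _J : Finset (Fin e), Fintype.card F ^ (d * e + a * α - M) :=
        Finset.sum_le_sum fun J _ => hterm J
    _ = 2 ^ e * Fintype.card F ^ (d * e + a * α - M) := by
        rw [Finset.sum_const, Finset.card_univ, Fintype.card_finset, Fintype.card_fin, smul_eq_mul]

/-- The base case over a large finite field. -/
theorem exists_base {u a d α e : ℕ} (M : ℕ → ℕ)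
    (hM : ∀ c j, 1 ≤ c → c ≤ a → c ≤ d → j ≤ c → j ≤ e → M c ≤ (c - j) * (e - j) + j * α)
    (hexp : ∀ c, 1 ≤ c → c ≤ a → c ≤ d → c * (a + d - c) + 1 ≤ u * M c)
    (hq : 2 ^ (a + e * u) < Fintype.card F) :
    ∃ x : Fin u → (Fin α → Fin a → F) × (Fin e → Fin d → F),
      ∀ φ : Fin a → Fin d → F, (∀ t, Rel φ (x t)) → φ = 0 := by
  classical
  by_contra hcon
  push Not at hcon
  choose φx hφx hφ0 using hcon
  let S : Finset (Fin a) → Type := fun J => {φ : Fin a → Fin d → F //
    ((∀ k, φ k ∈ Submodule.span F (Set.range fun l : ↥J => φ l)) ∧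
      LinearIndependent F (fun l : ↥J => φ l)) ∧ φ ≠ 0}
  let O : (J : Finset (Fin a)) → S J → Type := fun J φ =>
    {x : (Fin α → Fin a → F) × (Fin e → Fin d → F) // Rel φ.1 x}
  have hJ : ∀ φ : Fin a → Fin d → F, ∃ J : Finset (Fin a),
      (∀ k, φ k ∈ Submodule.span F (Set.range fun l : ↥J => φ l)) ∧
      LinearIndependent F (fun l : ↥J => φ l) := fun φ => exists_indep (F := F) φ
  choose Jφ hJφ using hJ
  let g : (Fin u → (Fin α → Fin a → F) × (Fin e → Fin d → F)) →
      Σ J : Finset (Fin a), Σ φ : S J, (Fin u → O J φ) := fun x =>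
    ⟨Jφ (φx x), ⟨φx x, hJφ (φx x), hφ0 x⟩, fun t => ⟨x t, hφx x t⟩⟩
  have hg : Function.Injective g := by
    have key : ∀ y y' : Σ J : Finset (Fin a), Σ φ : S J, (Fin u → O J φ), y = y' →
        (fun t => (y.2.2 t).1) = fun t => (y'.2.2 t).1 := by
      rintro y y' rfl
      rfl
    intro x x' h
    exact key _ _ h
  have : ∀ J (φ : S J), Finite (O J φ) := fun J φ => by
    change Finite {x : (Fin α → Fin a → F) × (Fin e → Fin d → F) // Rel φ.1 x}
    infer_instance
  have : ∀ J, Finite (S J) := fun J => by
    change Finite {φ : Fin a → Fin d → F //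
      ((∀ k, φ k ∈ Submodule.span F (Set.range fun l : ↥J => φ l)) ∧
      LinearIndependent F (fun l : ↥J => φ l)) ∧ φ ≠ 0}
    infer_instance
  have hfin : ∀ J, Fintype (S J) := fun J => Fintype.ofFinite _
  have h0 := Nat.card_le_card_of_injective g hg
  rw [Nat.card_sigma] at h0
  set q := Fintype.card F with hqdef
  have hq0 : 0 < q := Fintype.card_pos
  have hterm : ∀ J : Finset (Fin a), Nat.card (Σ φ : S J, (Fin u → O J φ)) ≤
      2 ^ (e * u) * q ^ (u * (d * e + a * α) - 1) := by
    intro J
    rw [Nat.card_sigma]
    by_cases hne : Nonempty (S J)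
    · have hrank : ∀ φ : S J, (Matrix.of φ.1).rank = J.card := by
        intro φ
        rw [Matrix.rank_eq_finrank_span_row]
        have h1 : Submodule.span F (Set.range (Matrix.of φ.1).row) =
            Submodule.span F (Set.range fun l : ↥J => φ.1 l) := by
          apply le_antisymm
          · rw [Submodule.span_le]
            rintro _ ⟨k, rfl⟩
            exact φ.2.1.1 k
          · apply Submodule.span_mono
            rintro _ ⟨l, rfl⟩
            exact ⟨l.1, rfl⟩
        rw [h1, finrank_span_eq_card φ.2.1.2, Fintype.card_coe]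
      have hJ1 : 1 ≤ J.card := by
        obtain ⟨φ⟩ := hne
        rw [Nat.one_le_iff_ne_zero]
        intro h1
        rw [Finset.card_eq_zero] at h1
        subst h1
        apply φ.2.2
        funext k
        have h2 := φ.2.1.1 k
        have h3 : (Set.range fun l : ↥(∅ : Finset (Fin a)) => φ.1 l) = ∅ :=
          Set.range_eq_empty _
        rw [h3, Submodule.span_empty, Submodule.mem_bot] at h2
        exact h2
      have hJa : J.card ≤ a := by
        have := Finset.card_le_univ J
        rwa [Fintype.card_fin] at this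
      have hJd : J.card ≤ d := by
        obtain ⟨φ⟩ := hne
        rw [← hrank φ]
        exact (Matrix.rank_le_card_width _).trans (by rw [Fintype.card_fin])
      have hO : ∀ φ : S J, Nat.card (Fin u → O J φ) ≤
          (2 ^ e * q ^ (d * e + a * α - M J.card)) ^ u := by
        intro φ
        rw [Nat.card_fun, Nat.card_eq_fintype_card (α := Fin u), Fintype.card_fin]
        apply Nat.pow_le_pow_left
        exact card_pairs_le φ.1 (hrank φ) fun j hj1 hj2 => hM _ j hJ1 hJa hJd hj1 hj2
      have hS : Nat.card (S J) ≤ q ^ (d * J.card + J.card * (a - J.card)) := by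
        have h1 := card_family_le (F := F) (V := Fin d → F) (LinearMap.id) (ι := Fin a) J
        rw [Module.finrank_fintype_fun_eq_card, Fintype.card_fin, LinearMap.range_id,
          finrank_top, Module.finrank_fintype_fun_eq_card, Fintype.card_fin, Fintype.card_fin,
          Nat.sub_self, Nat.zero_add] at h1
        refine le_trans ?_ h1
        apply Nat.card_le_card_of_injective (f := fun φ : S J => (⟨φ.1, φ.2.1.1⟩ :
          {w : Fin a → Fin d → F // ∀ k, LinearMap.id (R := F) (w k) ∈
            Submodule.span F (Set.range fun l : ↥J => LinearMap.id (R := F) (w l))}))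
        intro w w' h
        simp only [Subtype.mk.injEq] at h
        exact Subtype.ext h
      have hMle : M J.card ≤ d * e + a * α := by
        have h1 := hM J.card 0 hJ1 hJa hJd (Nat.zero_le _) (Nat.zero_le _)
        have h2 : J.card * e ≤ d * e := Nat.mul_le_mul_right _ hJd
        simp only [Nat.sub_zero, Nat.zero_mul, Nat.add_zero] at h1
        omega
      calc ∑ φ : S J, Nat.card (Fin u → O J φ) ≤
            ∑ _φ : S J, (2 ^ e * q ^ (d * e + a * α - M J.card)) ^ u :=
            Finset.sum_le_sum fun φ _ => hO φ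
        _ = Nat.card (S J) * (2 ^ e * q ^ (d * e + a * α - M J.card)) ^ u := by
            rw [Finset.sum_const, Finset.card_univ, smul_eq_mul, Nat.card_eq_fintype_card]
        _ ≤ q ^ (d * J.card + J.card * (a - J.card)) *
            (2 ^ e * q ^ (d * e + a * α - M J.card)) ^ u := Nat.mul_le_mul_right _ hS
        _ = 2 ^ (e * u) * q ^ (d * J.card + J.card * (a - J.card) +
            (d * e + a * α - M J.card) * u) := by
            rw [mul_pow, ← pow_mul, ← pow_mul, pow_add]
            ring
        _ ≤ 2 ^ (e * u) * q ^ (u * (d * e + a * α) - 1) := by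
            apply Nat.mul_le_mul_left
            apply Nat.pow_le_pow_right hq0
            have h1 := hexp J.card hJ1 hJa hJd
            obtain ⟨x, hx⟩ := Nat.exists_eq_add_of_le hMle
            obtain ⟨y, hy⟩ := Nat.exists_eq_add_of_le hJa
            have e1 : d * e + a * α - M J.card = x := by omega
            have e2 : a - J.card = y := by omega
            have e3 : a + d - J.card = y + d := by omega
            rw [e3] at h1
            rw [e1, e2, hx]
            have h2 : u * (M J.card + x) = u * M J.card + x * u := by ring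
            have h3 : J.card * (y + d) = d * J.card + J.card * y := by ring
            rw [h2]
            rw [h3] at h1
            omega
    · rw [not_nonempty_iff] at hne
      rw [Finset.univ_eq_empty, Finset.sum_empty]
      exact Nat.zero_le _
  have h1 : Nat.card (Fin u → (Fin α → Fin a → F) × (Fin e → Fin d → F)) =
      q ^ (u * (d * e + a * α)) := by
    rw [Nat.card_fun, Nat.card_eq_fintype_card (α := Fin u), Fintype.card_fin, Nat.card_prod,
      Nat.card_fun, Nat.card_fun, Nat.card_fun, Nat.card_fun]
    simp only [Nat.card_eq_fintype_card, Fintype.card_fin]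
    rw [← hqdef, ← pow_mul, ← pow_mul, ← pow_add, ← pow_mul]
    congr 1
    ring
  rw [h1] at h0
  have h2 : ∑ J : Finset (Fin a), Nat.card (Σ φ : S J, (Fin u → O J φ)) ≤
      2 ^ a * (2 ^ (e * u) * q ^ (u * (d * e + a * α) - 1)) := by
    calc ∑ J : Finset (Fin a), Nat.card (Σ φ : S J, (Fin u → O J φ)) ≤
          ∑ _J : Finset (Fin a), 2 ^ (e * u) * q ^ (u * (d * e + a * α) - 1) :=
          Finset.sum_le_sum fun J _ => hterm J
      _ = 2 ^ a * (2 ^ (e * u) * q ^ (u * (d * e + a * α) - 1)) := by
          rw [Finset.sum_const, Finset.card_univ, Fintype.card_finset, Fintype.card_fin,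
            smul_eq_mul]
  have h3 := h0.trans h2
  have h4 : 0 < q ^ (u * (d * e + a * α) - 1) := Nat.pow_pos hq0
  rw [← mul_assoc, ← pow_add] at h3
  by_cases hz : u * (d * e + a * α) = 0
  · -- then there is nothing to choose, and `φ ≠ 0` contradicts the inequality
    have h5 : φx (fun t => (fun _ _ => 0, fun _ _ => 0)) ≠ 0 := hφ0 _
    set φ := φx (fun t => (fun _ _ => 0, fun _ _ => 0)) with hφ
    have ha : 1 ≤ a := by
      rcases Nat.eq_zero_or_pos a with h6 | h6
      · exfalso
        apply h5
        funext i
        subst h6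
        exact Fin.elim0 i
      · exact h6
    have hd : 1 ≤ d := by
      rcases Nat.eq_zero_or_pos d with h6 | h6
      · exfalso
        apply h5
        funext i l
        subst h6
        exact Fin.elim0 l
      · exact h6
    have h8 := hexp 1 le_rfl ha hd
    have h9 := hM 1 0 le_rfl ha hd (Nat.zero_le _) (Nat.zero_le _)
    simp only [Nat.sub_zero, Nat.zero_mul, Nat.add_zero] at h9
    have h10 : u * M 1 ≤ u * (d * e + a * α) := by
      apply Nat.mul_le_mul_left
      have : 1 * e ≤ d * e := Nat.mul_le_mul_right _ hd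
      omega
    omega
  · have h5 : q ^ (u * (d * e + a * α)) = q * q ^ (u * (d * e + a * α) - 1) := by
      rw [← pow_succ']
      congr 1
      omega
    rw [h5] at h3
    have h6 := Nat.le_of_mul_le_mul_right h3 h4
    omega

end Finite

end Pool.Agent.H95.GF
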