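import Pool.Agent.H95.GF.Base

/-!
The base case over the complex numbers.
-/

namespace Pool.Agent.H95.GF

/-- `s` products of an `α`-dimensional subspace of `ℂ ^ a` and an `e`-dimensional subspace of
`ℂ ^ d` that span `ℂ ^ a ⊗ ℂ ^ d`. -/
def B2 (s a α d e : ℕ) : Prop :=
  ∃ (v : Fin s → Fin α → Fin a → ℂ) (w : Fin s → Fin e → Fin d → ℂ),
    Inj (fun (c : Fin s × Fin α × Fin e) (z : Fin a × Fin d) =>
      v c.1 c.2.1 z.1 * w c.1 c.2.2 z.2)

theorem b2_of_cond {u a d α e : ℕ} (M : ℕ → ℕ)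
    (hM : ∀ c j, 1 ≤ c → c ≤ a → c ≤ d → j ≤ c → j ≤ e → M c ≤ (c - j) * (e - j) + j * α)
    (hexp : ∀ c, 1 ≤ c → c ≤ a → c ≤ d → c * (a + d - c) + 1 ≤ u * M c) : B2 u a α d e := by
  obtain ⟨p, hp1, hp2⟩ := Nat.exists_infinite_primes (2 ^ (a + e * u) + 1)
  have : Fact p.Prime := ⟨hp2⟩
  obtain ⟨x, hx⟩ := exists_base (F := ZMod p) (α := α) M hM hexp (by rw [ZMod.card]; omega)
  choose v hv using fun t k i => ZMod.intCast_surjective ((x t).1 k i)
  choose w hw using fun t k i => ZMod.intCast_surjective ((x t).2 k i)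
  refine ⟨fun t k i => ((v t k i : ℤ) : ℂ), fun t k i => ((w t k i : ℤ) : ℂ), ?_⟩
  have key : Inj (fun (c : Fin u × Fin α × Fin e) (z : Fin a × Fin d) =>
      ((v c.1 c.2.1 z.1 * w c.1 c.2.2 z.2 : ℤ) : ZMod p)) := by
    intro φ hφ
    have h1 : (fun i l => φ (i, l)) = (0 : Fin a → Fin d → ZMod p) := by
      apply hx
      intro t k₀ k
      have h2 := hφ (t, k₀, k)
      rw [Fintype.sum_prod_type] at h2
      rw [← h2]
      refine Finset.sum_congr rfl fun i _ => ?_
      rw [Finset.mul_sum]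
      refine Finset.sum_congr rfl fun l _ => ?_
      simp only [Int.cast_mul, hv, hw]
      ring
    funext z
    exact congrFun (congrFun h1 z.1) z.2
  have h3 := inj_lift (p := p) (fun (c : Fin u × Fin α × Fin e) (z : Fin a × Fin d) =>
      v c.1 c.2.1 z.1 * w c.1 c.2.2 z.2) key
  simpa only [Int.cast_mul] using h3

theorem b2_real {κ ρ : ℝ} (hκ : 2 ≤ κ) (hρ : 2 ≤ ρ) {u : ℕ} (hu : κ * ρ < u) :
    ∃ a e d : ℕ, 0 < e ∧ κ * e ≤ a ∧ ρ * e ≤ d ∧ B2 u a e d e := by
  set η : ℝ := u - κ * ρ with hη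
  have hη0 : 0 < η := by
    rw [hη]
    linarith
  set e : ℕ := ⌈(κ + ρ + 6) / η⌉₊ + 1 with he
  have he1 : (κ + ρ + 6) / η ≤ e := by
    rw [he, Nat.cast_add, Nat.cast_one]
    have := Nat.le_ceil ((κ + ρ + 6) / η)
    linarith
  have heη : κ + ρ + 6 ≤ η * e := by
    rw [div_le_iff₀ hη0] at he1
    linarith
  have he0 : 0 < e := by omega
  have he0' : (1 : ℝ) ≤ e := by exact_mod_cast he0
  have hu4 : (4 : ℝ) < u := by nlinarith
  have ha : ((⌈κ * e⌉₊ : ℕ) : ℝ) ≤ κ * e + 1 :=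
    (Nat.ceil_lt_add_one (by positivity)).le
  have hd : ((⌈ρ * e⌉₊ : ℕ) : ℝ) ≤ ρ * e + 1 :=
    (Nat.ceil_lt_add_one (by positivity)).le
  refine ⟨⌈κ * e⌉₊, e, ⌈ρ * e⌉₊, he0, Nat.le_ceil _, Nat.le_ceil _, ?_⟩
  set a := ⌈κ * e⌉₊ with ha'
  set d := ⌈ρ * e⌉₊ with hd'
  refine b2_of_cond (fun c => if c ≤ 2 * e then e * c - c * c / 4 else e * e) ?_ ?_
  · intro c j _ _ _ hjc hje
    obtain ⟨x, hx⟩ := Nat.exists_eq_add_of_le hjc
    obtain ⟨y, hy⟩ := Nat.exists_eq_add_of_le hje
    have e1 : c - j = x := by omega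
    have e2 : e - j = y := by omega
    rw [e1, e2]
    split_ifs with h
    · -- `4 j (c - j) ≤ c ^ 2`
      have h1 : j * x ≤ c * c / 4 := by
        rw [Nat.le_div_iff_mul_le (by norm_num), hx]
        zify
        nlinarith [sq_nonneg ((j : ℤ) - x)]
      have h2 : e * c = x * y + j * e + j * x := by
        rw [hx, hy]
        ring
      omega
    · have h1 : 2 * e < c := by omega
      have h3 : e ≤ x + j - e := by omega
      obtain ⟨z, hz⟩ := Nat.exists_eq_add_of_le (show 2 * e ≤ c by omega)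
      have h4 : x = j + 2 * y + z := by omega
      rw [h4]
      have h5 : e * e = (j + y) * e := by rw [← hy]
      rw [h5, hy]
      nlinarith
  · intro c hc1 hca hcd
    have hcr : (1 : ℝ) ≤ c := by exact_mod_cast hc1
    have hca' : (c : ℝ) ≤ a := by exact_mod_cast hca
    have hcd' : (c : ℝ) ≤ d := by exact_mod_cast hcd
    have hsub : ((a + d - c : ℕ) : ℝ) = (a : ℝ) + d - c := by
      rw [Nat.cast_sub (by omega), Nat.cast_add]
    split_ifs with h
    · have h' : (c : ℝ) ≤ 2 * e := by exact_mod_cast h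
      have h6 : ((e * c - c * c / 4 : ℕ) : ℝ) ≥ e * c - c * c / 4 := by
        have h7 : ((c * c / 4 : ℕ) : ℝ) ≤ (c : ℝ) * c / 4 := by
          refine Nat.cast_div_le.trans ?_
          push_cast
          exact le_rfl
        have h8 : ((e * c : ℕ) : ℝ) ≤ ((e * c - c * c / 4 : ℕ) : ℝ) + ((c * c / 4 : ℕ) : ℝ) := by
          rw [← Nat.cast_add]
          exact_mod_cast (by omega : e * c ≤ e * c - c * c / 4 + c * c / 4)
        push_cast at h8
        linarith
      have hB : (1 : ℝ) ≤ u * e - a - d - c * ((u : ℝ) / 4 - 1) := by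
        have h9 : (c : ℝ) * ((u : ℝ) / 4 - 1) ≤ 2 * e * ((u : ℝ) / 4 - 1) :=
          mul_le_mul_of_nonneg_right h' (by linarith)
        have h10 : η * e ≤ u * e - 2 * (κ + ρ) * e + 4 * e := by
          have h11 : 0 ≤ (κ - 2) * (ρ - 2) := mul_nonneg (by linarith) (by linarith)
          have h12 : η ≤ u - 2 * (κ + ρ) + 4 := by
            rw [hη]
            nlinarith
          have h13 := mul_le_mul_of_nonneg_right h12 (show (0 : ℝ) ≤ e by linarith)
          linarith
        linarith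
      have hreal : ((c * (a + d - c) + 1 : ℕ) : ℝ) ≤ ((u * (e * c - c * c / 4) : ℕ) : ℝ) := by
        rw [Nat.cast_add, Nat.cast_mul, hsub, Nat.cast_one, Nat.cast_mul]
        have h13 : (u : ℝ) * (e * c - c * c / 4) ≤ u * ((e * c - c * c / 4 : ℕ) : ℝ) :=
          mul_le_mul_of_nonneg_left h6 (by linarith)
        refine le_trans ?_ h13
        have h14 : (1 : ℝ) ≤ c * (u * e - a - d - c * ((u : ℝ) / 4 - 1)) := by
          calc (1 : ℝ) = 1 * 1 := by norm_num
            _ ≤ c * (u * e - a - d - c * ((u : ℝ) / 4 - 1)) :=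
              mul_le_mul hcr hB (by norm_num) (by linarith)
        have h15 : (c : ℝ) * (u * e - a - d - c * ((u : ℝ) / 4 - 1)) =
            u * (e * c - c * c / 4) - c * (a + d - c) := by ring
        linarith
      exact_mod_cast hreal
    · have hreal : ((c * (a + d - c) + 1 : ℕ) : ℝ) ≤ ((u * (e * e) : ℕ) : ℝ) := by
        rw [Nat.cast_add, Nat.cast_mul, hsub, Nat.cast_one, Nat.cast_mul, Nat.cast_mul]
        have h1 : (c : ℝ) * ((a : ℝ) + d - c) ≤ a * d := by
          have h0 := mul_nonneg (sub_nonneg.mpr hca') (sub_nonneg.mpr hcd')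
          have h00 : ((a : ℝ) - c) * ((d : ℝ) - c) = a * d - c * ((a : ℝ) + d - c) := by ring
          linarith
        have h2 : (a : ℝ) * d ≤ (κ * e + 1) * (ρ * e + 1) :=
          mul_le_mul ha hd (Nat.cast_nonneg _) (by positivity)
        have h3 : (κ * e + 1) * (ρ * e + 1) = κ * ρ * (e * e) + (κ + ρ) * e + 1 := by ring
        have h4 : (u : ℝ) * (e * e) = κ * ρ * (e * e) + (η * e) * e := by
          rw [hη]
          ring
        have h5 : (κ + ρ + 6) * e ≤ (η * e) * e := mul_le_mul_of_nonneg_right heη (by linarith)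
        rw [h4]
        linarith
      exact_mod_cast hreal

end Pool.Agent.H95.GF
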