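import Pool.Agent.H95.GF.Inj

/-!
The base case: spanning products of two families of subspaces, by counting over a finite field.
-/

namespace Pool.Agent.H95.GF

open Module

section Indep

variable {F : Type} [Field F]

/-- A maximal independent subfamily. -/
theorem exists_indep {ι Y : Type} [Fintype ι] [DecidableEq ι] [AddCommGroup Y] [Module F Y]
    (y : ι → Y) : ∃ J : Finset ι, (∀ k, y k ∈ Submodule.span F (Set.range fun l : ↥J => y l)) ∧
      LinearIndependent F (fun l : ↥J => y l) := by
  classical
  obtain ⟨κ, a, ha, hspan, hind⟩ := exists_linearIndependent' F y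
  have : Fintype κ := Fintype.ofInjective a ha
  refine ⟨Finset.univ.image a, ?_, ?_⟩
  · intro k
    have h1 : y k ∈ Submodule.span F (Set.range y) := Submodule.subset_span ⟨k, rfl⟩
    rw [← hspan] at h1
    refine Submodule.span_mono ?_ h1
    rintro _ ⟨x, rfl⟩
    exact ⟨⟨a x, Finset.mem_image_of_mem a (Finset.mem_univ x)⟩, rfl⟩
  · have hb : Function.Bijective (fun x : κ => (⟨a x, Finset.mem_image_of_mem a
        (Finset.mem_univ x)⟩ : ↥(Finset.univ.image a))) := by
      constructor
      · intro x x' h
        exact ha (congrArg Subtype.val h)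
      · rintro ⟨l, hl⟩
        obtain ⟨x, _, hx⟩ := Finset.mem_image.mp hl
        exact ⟨x, Subtype.ext hx⟩
    have e := Equiv.ofBijective _ hb
    refine (linearIndependent_equiv (Equiv.ofBijective _ hb)).mp ?_
    exact hind

end Indep

section Finite

variable {F : Type} [Field F] [Fintype F]

theorem card_preimage_le {V Y : Type} [AddCommGroup V] [Module F V] [Fintype V]
    [AddCommGroup Y] [Module F Y] (f : V →ₗ[F] Y) (W : Submodule F Y) [FiniteDimensional F W]
    {j : ℕ} (hW : finrank F W ≤ j) :
    Nat.card (W.comap f) ≤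
      Fintype.card F ^ (finrank F V - finrank F (LinearMap.range f) + j) := by
  classical
  have : FiniteDimensional F V := Module.Finite.of_finite
  have h1 : finrank F (W.comap f) ≤ finrank F (LinearMap.ker f) + j := by
    let g : (W.comap f) →ₗ[F] W := f.restrict (p := W.comap f) (q := W) fun x hx => hx
    have h2 := LinearMap.finrank_range_add_finrank_ker g
    have h3 : finrank F (LinearMap.range g) ≤ finrank F W := Submodule.finrank_le _
    have h4 : finrank F (LinearMap.ker g) ≤ finrank F (LinearMap.ker f) := by
      let i : LinearMap.ker g →ₗ[F] LinearMap.ker f :=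
        LinearMap.codRestrict _ ((Submodule.subtype _).comp (Submodule.subtype _)) (by
          rintro ⟨x, hx⟩
          rw [LinearMap.mem_ker] at hx ⊢
          exact congrArg Subtype.val hx)
      apply LinearMap.finrank_le_finrank_of_injective (f := i)
      intro x x' h
      have h' : ((i x : LinearMap.ker f) : V) = ((i x' : LinearMap.ker f) : V) := by rw [h]
      exact Subtype.ext (Subtype.ext h')
    omega
  have h5 := LinearMap.finrank_range_add_finrank_ker f
  rw [Module.natCard_eq_pow_finrank (K := F), Nat.card_eq_fintype_card]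
  apply Nat.pow_le_pow_right Fintype.card_pos
  omega

/-- The number of families with a given spanning subfamily. -/
theorem card_family_le {V Y ι : Type} [AddCommGroup V] [Module F V] [Fintype V]
    [AddCommGroup Y] [Module F Y] [Fintype ι] [DecidableEq ι] (f : V →ₗ[F] Y) (J : Finset ι) :
    Nat.card {w : ι → V // ∀ k, f (w k) ∈ Submodule.span F (Set.range fun l : ↥J => f (w l))} ≤
      Fintype.card F ^ (finrank F V * J.card +
        (finrank F V - finrank F (LinearMap.range f) + J.card) * (Fintype.card ι - J.card)) := by
  classical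
  have : FiniteDimensional F V := Module.Finite.of_finite
  let Sp : (↥J → V) → Submodule F Y := fun w₀ => Submodule.span F (Set.range fun l => f (w₀ l))
  let A : (↥J → V) → Type := fun w₀ => {k // k ∉ J} → ↥((Sp w₀).comap f)
  let g : {w : ι → V // ∀ k, f (w k) ∈ Submodule.span F (Set.range fun l : ↥J => f (w l))} →
      Σ w₀ : ↥J → V, A w₀ := fun w => ⟨fun l => w.1 l, fun k => ⟨w.1 k, w.2 k⟩⟩
  have hg : Function.Injective g := by
    rintro ⟨w, hw⟩ ⟨w', hw'⟩ h
    apply Subtype.ext
    funext k
    have h1 : (fun l : ↥J => w l) = fun l : ↥J => w' l := congrArg Sigma.fst h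
    by_cases hk : k ∈ J
    · exact congrFun h1 ⟨k, hk⟩
    · have h2 : ∀ (x x' : Σ w₀ : ↥J → V, A w₀), x = x' → ((x.2 ⟨k, hk⟩ : V) = (x'.2 ⟨k, hk⟩ : V)) := by
        rintro x x' rfl
        rfl
      exact h2 _ _ h
  have : ∀ w₀, Finite (A w₀) := fun w₀ => inferInstance
  refine (Nat.card_le_card_of_injective g hg).trans ?_
  rw [Nat.card_sigma]
  have hA : ∀ w₀, Nat.card (A w₀) ≤ (Fintype.card F ^
      (finrank F V - finrank F (LinearMap.range f) + J.card)) ^ (Fintype.card ι - J.card) := by
    intro w₀
    have h1 : Nat.card (A w₀) = (Nat.card ↥((Sp w₀).comap f)) ^ (Fintype.card ι - J.card) := by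
      change Nat.card ({k // k ∉ J} → ↥((Sp w₀).comap f)) = _
      rw [Nat.card_fun, Nat.card_eq_fintype_card (α := {k // k ∉ J}), Fintype.card_subtype_compl]
      simp
    rw [h1]
    apply Nat.pow_le_pow_left
    have : FiniteDimensional F (Sp w₀) := FiniteDimensional.span_of_finite F (Set.finite_range _)
    apply card_preimage_le
    have h2 := finrank_range_le_card (R := F) (b := fun l : ↥J => f (w₀ l))
    rw [Fintype.card_coe] at h2
    exact h2
  calc ∑ w₀, Nat.card (A w₀) ≤ ∑ _w₀ : ↥J → V, (Fintype.card F ^
        (finrank F V - finrank F (LinearMap.range f) + J.card)) ^ (Fintype.card ι - J.card) :=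
        Finset.sum_le_sum fun w₀ _ => hA w₀
    _ = Fintype.card F ^ (finrank F V * J.card +
        (finrank F V - finrank F (LinearMap.range f) + J.card) * (Fintype.card ι - J.card)) := by
        rw [Finset.sum_const, Finset.card_univ, Fintype.card_fun, Fintype.card_coe,
          Module.card_eq_pow_finrank (K := F) (V := V), smul_eq_mul, ← pow_mul, ← pow_mul,
          ← pow_add]

/-- The number of vectors orthogonal to an independent family. -/
theorem card_orthogonal_le {a j : ℕ} {κ : Type} [Fintype κ] (hκ : Fintype.card κ = j)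
    (y : κ → Fin a → F) (hy : LinearIndependent F y) :
    Nat.card {x : Fin a → F // ∀ k, ∑ i, x i * y k i = 0} ≤ Fintype.card F ^ (a - j) := by
  classical
  let L : (Fin a → F) →ₗ[F] (κ → F) := (Matrix.of y).mulVecLin
  have hL : {x : Fin a → F | ∀ k, ∑ i, x i * y k i = 0} = (LinearMap.ker L : Set (Fin a → F)) := by
    ext x
    rw [Set.mem_ofPred_eq, SetLike.mem_coe, LinearMap.mem_ker]
    constructor
    · intro h
      funext k
      rw [Matrix.mulVecLin_apply, Matrix.mulVec, dotProduct, Pi.zero_apply, ← h k]
      exact Finset.sum_congr rfl fun i _ => mul_comm _ _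
    · intro h k
      have h1 := congrFun h k
      rw [Matrix.mulVecLin_apply, Matrix.mulVec, dotProduct, Pi.zero_apply] at h1
      rw [← h1]
      exact Finset.sum_congr rfl fun i _ => mul_comm _ _
  have h1 : Nat.card {x : Fin a → F // ∀ k, ∑ i, x i * y k i = 0} = Nat.card (LinearMap.ker L) :=
    Nat.card_congr (Equiv.setCongr hL)
  rw [h1, Module.natCard_eq_pow_finrank (K := F), Nat.card_eq_fintype_card]
  apply Nat.pow_le_pow_right Fintype.card_pos
  have h2 := LinearMap.finrank_range_add_finrank_ker L
  rw [Module.finrank_fintype_fun_eq_card, Fintype.card_fin] at h2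
  have h3 : finrank F (LinearMap.range L) = j := by
    have h4 : (Matrix.of y).rank = Fintype.card κ := by
      apply LinearIndependent.rank_matrix
      exact hy
    rw [hκ] at h4
    exact h4
  omega

end Finite

end Pool.Agent.H95.GF
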