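import Pool.Agent.H95.GF.Sym
import Pool.Agent.H95.GA.Window

/-!
Exact values of the generic and the maximal rank.
-/

namespace Pool.Agent.H95.GF

open Pool.Agent.H95.GA

/-- The comparison of dimensions for tensors. -/
theorem tens_dim_lt {n s R : ℕ} {ε : ℝ} {m r : Fin n → ℕ} (hs : 1 ≤ s) (hR : 1 ≤ R)
    (hεR : (n : ℝ) * s * s < ε * R) (hr : ∀ i, 1 ≤ r i)
    (hbal : ∀ i, R * r i ≤ ∏ j ∈ Finset.univ.erase i, r j) (hms : ∀ i, m i ≤ s * r i)
    (hlow : ((s : ℝ) - 1 + ε) * ∏ i, (r i : ℝ) ≤ ∏ i, (m i : ℝ)) :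
    (s - 1) * (∏ i, r i + ∑ i, r i * m i) < ∏ i, m i := by
  classical
  have hr0 : ∀ i, (0 : ℝ) < r i := fun i => by exact_mod_cast hr i
  have hP : 0 < ∏ i, (r i : ℝ) := Finset.prod_pos fun i _ => hr0 i
  have hR0 : (0 : ℝ) < R := by exact_mod_cast hR
  have hs0 : (1 : ℝ) ≤ s := by exact_mod_cast hs
  have h1 : ∀ i, (R : ℝ) * ((r i : ℝ) * m i) ≤ s * ∏ i, (r i : ℝ) := by
    intro i
    have h2 : R * (r i * r i) ≤ ∏ j, r j := by
      rw [← Finset.mul_prod_erase Finset.univ r (Finset.mem_univ i)]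
      calc R * (r i * r i) = r i * (R * r i) := by ring
        _ ≤ r i * ∏ j ∈ Finset.univ.erase i, r j := Nat.mul_le_mul_left _ (hbal i)
    have h3 : R * (r i * m i) ≤ s * ∏ j, r j := by
      calc R * (r i * m i) ≤ R * (r i * (s * r i)) :=
            Nat.mul_le_mul_left _ (Nat.mul_le_mul_left _ (hms i))
        _ = s * (R * (r i * r i)) := by ring
        _ ≤ s * ∏ j, r j := Nat.mul_le_mul_left _ h2
    exact_mod_cast h3
  have h2 : (R : ℝ) * ∑ i, (r i : ℝ) * m i ≤ n * (s * ∏ i, (r i : ℝ)) := by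
    rw [Finset.mul_sum]
    refine (Finset.sum_le_sum fun i _ => h1 i).trans ?_
    rw [Finset.sum_const, Finset.card_univ, Fintype.card_fin, nsmul_eq_mul]
  have h3 : (R : ℝ) * (((s : ℝ) - 1) * (∏ i, (r i : ℝ) + ∑ i, (r i : ℝ) * m i)) <
      R * ∏ i, (m i : ℝ) := by
    calc (R : ℝ) * (((s : ℝ) - 1) * (∏ i, (r i : ℝ) + ∑ i, (r i : ℝ) * m i))
        = ((s : ℝ) - 1) * (R * ∏ i, (r i : ℝ)) + ((s : ℝ) - 1) * (R * ∑ i, (r i : ℝ) * m i) := by
          ring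
      _ ≤ ((s : ℝ) - 1) * (R * ∏ i, (r i : ℝ)) +
          ((s : ℝ) - 1) * (n * (s * ∏ i, (r i : ℝ))) := by
          have := mul_le_mul_of_nonneg_left h2 (show (0 : ℝ) ≤ (s : ℝ) - 1 by linarith)
          linarith
      _ ≤ ((s : ℝ) - 1) * (R * ∏ i, (r i : ℝ)) + (n * s * s) * ∏ i, (r i : ℝ) := by
          have h4 : ((s : ℝ) - 1) * (n * (s * ∏ i, (r i : ℝ))) =
              (n * s * s) * ∏ i, (r i : ℝ) - (n * s) * ∏ i, (r i : ℝ) := by ring
          have h5 : (0 : ℝ) ≤ (n * s) * ∏ i, (r i : ℝ) := by positivity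
          linarith
      _ < ((s : ℝ) - 1) * (R * ∏ i, (r i : ℝ)) + (ε * R) * ∏ i, (r i : ℝ) := by
          have := mul_lt_mul_of_pos_right hεR hP
          linarith
      _ = R * (((s : ℝ) - 1 + ε) * ∏ i, (r i : ℝ)) := by ring
      _ ≤ R * ∏ i, (m i : ℝ) := mul_le_mul_of_nonneg_left hlow hR0.le
  have h4 : ((s : ℝ) - 1) * (∏ i, (r i : ℝ) + ∑ i, (r i : ℝ) * m i) < ∏ i, (m i : ℝ) :=
    lt_of_mul_lt_mul_left h3 hR0.le
  have h5 : (((s - 1 : ℕ) : ℝ)) = (s : ℝ) - 1 := by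
    rw [Nat.cast_sub hs, Nat.cast_one]
  rw [← h5] at h4
  exact_mod_cast h4

/-- The ratios are bounded by the bound for the product. -/
theorem ratio_bound {n s : ℕ} {m r : Fin n → ℕ} (hr : ∀ i, 1 ≤ r i) (hrm : ∀ i, r i ≤ m i)
    (hprod : ∏ i, m i ≤ s * ∏ i, r i) (i : Fin n) : m i ≤ s * r i := by
  classical
  have h1 : m i * ∏ j ∈ Finset.univ.erase i, r j ≤ (s * r i) * ∏ j ∈ Finset.univ.erase i, r j := by
    calc m i * ∏ j ∈ Finset.univ.erase i, r j ≤ m i * ∏ j ∈ Finset.univ.erase i, m j :=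
          Nat.mul_le_mul_left _ (Finset.prod_le_prod' fun j _ => hrm j)
      _ = ∏ j, m j := Finset.mul_prod_erase _ m (Finset.mem_univ i)
      _ ≤ s * ∏ j, r j := hprod
      _ = (s * r i) * ∏ j ∈ Finset.univ.erase i, r j := by
          rw [← Finset.mul_prod_erase Finset.univ r (Finset.mem_univ i)]
          ring
  exact Nat.le_of_mul_le_mul_right h1 (Finset.prod_pos fun j _ => hr j)

/-- Tensors: exact values for ratios at least `3 * 6 ^ N`. -/
theorem tensor_exact (N s : ℕ) {ε : ℝ} (hε : 0 < ε) :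
    ∃ R : ℕ, ∀ m r : Fin (N + 2) → ℕ, (∀ i, R ≤ r i) →
      (∀ i, (3 * 6 ^ N) * r i ≤ m i) → (∏ i, (m i : ℝ)) ≤ (s - ε) * ∏ i, (r i : ℝ) →
      (∀ T, Pool.Agent.H42.TR.RankLE (fun i => Fin (m i)) r s T) ∧
      ((∀ i, R * r i ≤ ∏ j ∈ Finset.univ.erase i, r j) →
        ((s : ℝ) - 1 + ε) * ∏ i, (r i : ℝ) ≤ ∏ i, (m i : ℝ) →
        Pool.Agent.H42.TR.IsGenericRank (fun i => Fin (m i)) r s) := by
  obtain ⟨R₁, hR₁, hR⟩ := tensor_upper N s hε
  obtain ⟨R₂, hR₂⟩ := exists_nat_gt (((N + 2 : ℕ) : ℝ) * s * s / ε)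
  refine ⟨R₁ + R₂, fun m r hr hm hprod => ?_⟩
  have hr1 : ∀ i, 1 ≤ r i := fun i => by
    have := hr i
    omega
  have hm' : ∀ i, (3 * 6 ^ N : ℝ) * r i ≤ m i := fun i => by exact_mod_cast hm i
  have hall := hR m r (fun i => by have := hr i; omega) hm' hprod
  refine ⟨hall, fun hbal hlow => ?_⟩
  have hP : 0 < ∏ i, (r i : ℝ) := Finset.prod_pos fun i _ => by exact_mod_cast hr1 i
  have hs : 1 ≤ s := by
    by_contra h
    have h0 : s = 0 := by omega
    rw [h0, Nat.cast_zero, zero_sub] at hprod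
    have h1 : 0 ≤ ∏ i, (m i : ℝ) := Finset.prod_nonneg fun i _ => Nat.cast_nonneg _
    have h2 : 0 < ε * ∏ i, (r i : ℝ) := mul_pos hε hP
    linarith
  refine generic_of_bounds hall ?_
  have hrm : ∀ i, r i ≤ m i := fun i =>
    le_trans (Nat.le_mul_of_pos_left _ (by positivity)) (hm i)
  have hprod' : ∏ i, m i ≤ s * ∏ i, r i := by
    have h1 : (∏ i, (m i : ℝ)) ≤ s * ∏ i, (r i : ℝ) := by
      refine hprod.trans (mul_le_mul_of_nonneg_right (by linarith) hP.le)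
    exact_mod_cast h1
  refine tens_dim_lt (R := R₁ + R₂) hs (by omega) ?_ hr1 hbal
    (ratio_bound hr1 hrm hprod') hlow
  rw [div_lt_iff₀ hε] at hR₂
  rw [mul_comm ε]
  refine lt_of_lt_of_le hR₂ (mul_le_mul_of_nonneg_right ?_ hε.le)
  exact_mod_cast Nat.le_add_left _ _

/-- The cube construction. -/
theorem fill_cube {n : ℕ} {m r q : Fin n → ℕ} (h : ∀ i, m i ≤ q i * r i) :
    Fill n (∏ i, q i) m r := by
  classical
  have hv : ∀ (i : Fin n) (x : Fin (m i)), (x : ℕ) / r i < q i := by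
    intro i x
    rw [Nat.div_lt_iff_lt_mul (by
      by_contra h0
      have h1 : r i = 0 := by omega
      have h2 := h i
      rw [h1, Nat.mul_zero] at h2
      have h3 := x.2
      omega)]
    exact lt_of_lt_of_le x.2 (h i)
  refine ⟨fun t i k x => if (x : ℕ) / r i = (finPiFinEquiv.symm t i : ℕ) ∧ (x : ℕ) % r i = k
    then 1 else 0, ?_⟩
  intro f hf
  funext z
  have h1 := hf ⟨finPiFinEquiv fun i => ⟨(z i : ℕ) / r i, hv i (z i)⟩,
    fun i => ⟨(z i : ℕ) % r i, Nat.mod_lt _ (by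
      by_contra h0
      have h1 : r i = 0 := by omega
      have h2 := h i
      rw [h1, Nat.mul_zero] at h2
      have h3 := (z i).2
      omega)⟩⟩
  rw [Finset.sum_eq_single z] at h1
  · simpa using h1
  · intro b _ hb
    obtain ⟨i, hi⟩ : ∃ i, b i ≠ z i := by
      by_contra hcon
      push Not at hcon
      exact hb (funext hcon)
    have h2 : (∏ i, if (b i : ℕ) / r i = (finPiFinEquiv.symm (finPiFinEquiv fun i =>
        (⟨(z i : ℕ) / r i, hv i (z i)⟩ : Fin (q i))) i : ℕ) ∧ (b i : ℕ) % r i = (z i : ℕ) % r i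
        then (1 : ℂ) else 0) = 0 := by
      refine Finset.prod_eq_zero (Finset.mem_univ i) (if_neg ?_)
      rw [Equiv.symm_apply_apply]
      rintro ⟨h3, h4⟩
      apply hi
      apply Fin.ext
      rw [← Nat.div_add_mod (b i : ℕ) (r i), ← Nat.div_add_mod (z i : ℕ) (r i), h4]
      simp only at h3
      rw [h3]
    exact mul_eq_zero_of_right _ h2
  · intro h3
    exact absurd (Finset.mem_univ _) h3

/-- Tensors: exact values when all ratios are close to integers. -/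
theorem tensor_integer_unif (n s : ℕ) {ε : ℝ} (hε : 0 < ε) :
    ∃ R : ℕ, ∀ m r q : Fin n → ℕ, (∀ i, 1 ≤ r i) → (∀ i, r i ≤ m i) → ∏ i, q i = s →
      (∀ i, m i ≤ q i * r i) →
      (∀ T, Pool.Agent.H42.TR.RankLE (fun i => Fin (m i)) r s T) ∧
      ((∀ i, R * r i ≤ ∏ j ∈ Finset.univ.erase i, r j) →
        ((s : ℝ) - 1 + ε) * ∏ i, (r i : ℝ) ≤ ∏ i, (m i : ℝ) →
        Pool.Agent.H42.TR.IsGenericRank (fun i => Fin (m i)) r s) := by
  obtain ⟨R₂, hR₂⟩ := exists_nat_gt ((n : ℝ) * s * s / ε)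
  refine ⟨R₂ + 1, fun m r q hr hrm hq hm => ?_⟩
  subst hq
  have hall : ∀ T, Pool.Agent.H42.TR.RankLE (fun i => Fin (m i)) r (∏ i, q i) T := fun T =>
    rankLE_of_fill (fill_cube hm) (fun i => le_rfl) hrm T
  refine ⟨hall, fun hbal hlow => ?_⟩
  have hs : 1 ≤ ∏ i, q i := Nat.one_le_iff_ne_zero.mpr (Finset.prod_ne_zero_iff.mpr fun i _ => by
    intro h0
    have h1 := hm i
    have h2 := hrm i
    have h3 := hr i
    rw [h0, Nat.zero_mul] at h1
    omega)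
  refine generic_of_bounds hall ?_
  have hprod' : ∏ i, m i ≤ (∏ i, q i) * ∏ i, r i := by
    rw [← Finset.prod_mul_distrib]
    exact Finset.prod_le_prod' fun i _ => hm i
  refine tens_dim_lt (R := R₂ + 1) hs (by omega) ?_ hr hbal (ratio_bound hr hrm hprod') hlow
  rw [div_lt_iff₀ hε] at hR₂
  rw [mul_comm ε]
  refine lt_of_lt_of_le hR₂ (mul_le_mul_of_nonneg_right ?_ hε.le)
  exact_mod_cast Nat.le_add_right _ _

/-- Forms: exact values for ratios at least `3 * 6 ^ N`. -/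
theorem sym_exact (N s : ℕ) (hN : 1 ≤ N) {ε : ℝ} (hε : 0 < ε) :
    ∃ R : ℕ, ∀ m r : ℕ, R ≤ r → (3 * 6 ^ N) * r ≤ m →
      ((s : ℝ) - 1 + ε) * (r : ℝ) ^ (N + 2) ≤ (m : ℝ) ^ (N + 2) →
      (m : ℝ) ^ (N + 2) ≤ (s - ε) * (r : ℝ) ^ (N + 2) →
      Pool.Agent.H42.GR.IsGenericRank (Fin m) (N + 2) r s ∧
      ∀ T ∈ MvPolynomial.homogeneousSubmodule (Fin m) ℂ (N + 2),
        Pool.Agent.H42.GR.RankLE (Fin m) (N + 2) r s T := by
  obtain ⟨R₁, hR₁, hR⟩ := sym_upper N s hε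
  obtain ⟨R₂, hR₂⟩ := exists_nat_gt (((s : ℝ) - 1) *
    (2 ^ (N + 2) * ((N + 2 : ℕ) : ℝ) + (N + 2).factorial * s) / ε)
  refine ⟨R₁ + R₂ + (N + 2), fun m r hr hm hlow hup => ?_⟩
  have hr1 : 1 ≤ r := by omega
  have hr0 : (0 : ℝ) < r := by exact_mod_cast hr1
  have hall : ∀ T ∈ MvPolynomial.homogeneousSubmodule (Fin m) ℂ (N + 2),
      Pool.Agent.H42.GR.RankLE (Fin m) (N + 2) r s T := fun T hT =>
    hR m r (by omega) (by exact_mod_cast hm) hup T ((MvPolynomial.mem_homogeneousSubmodule _ _).mp hT)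
  refine ⟨?_, hall⟩
  have hrm : r ≤ m := le_trans (Nat.le_mul_of_pos_left _ (by positivity)) hm
  have hrn : (0 : ℝ) < (r : ℝ) ^ (N + 2) := by positivity
  have hs : 1 ≤ s := by
    by_contra h
    have h0 : s = 0 := by omega
    rw [h0, Nat.cast_zero, zero_sub] at hup
    have h1 : (0 : ℝ) ≤ (m : ℝ) ^ (N + 2) := by positivity
    have h2 : 0 < ε * (r : ℝ) ^ (N + 2) := mul_pos hε hrn
    linarith
  have hms : m ≤ s * r := by
    have h1 : (m : ℝ) ^ (N + 2) ≤ ((s : ℝ) * r) ^ (N + 2) := by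
      refine hup.trans ?_
      rw [mul_pow]
      apply mul_le_mul_of_nonneg_right _ hrn.le
      have h2 : (1 : ℝ) ≤ s := by exact_mod_cast hs
      have h3 : (s : ℝ) ^ 1 ≤ (s : ℝ) ^ (N + 2) := pow_le_pow_right₀ h2 (by omega)
      rw [pow_one] at h3
      linarith
    have h2 : (m : ℝ) ≤ (s : ℝ) * r := by
      by_contra hlt
      rw [not_le] at hlt
      have h3 := pow_lt_pow_left₀ hlt (by positivity) (show N + 2 ≠ 0 by omega)
      linarith
    exact_mod_cast h2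
  refine Pool.Agent.H95.GA.generic_of_bounds hrm hall ?_
  refine dim_lt (by omega) hs hr1 (by omega) hms ?_ hlow
  rw [div_lt_iff₀ hε] at hR₂
  refine lt_of_lt_of_le hR₂ ?_
  rw [mul_comm ε]
  apply mul_le_mul_of_nonneg_right _ hε.le
  have : R₂ ≤ r := by omega
  exact_mod_cast this

end Pool.Agent.H95.GF
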