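import Pool.Agent.H95.GF.Base2

/-!
Spanning products of subspaces in `n + 1` factors: the operations.
-/

namespace Pool.Agent.H95.GF

/-- The subspaces indexed by `T` have spanning products, in the factors `A` and `X i`. -/
def FS (n : ℕ) (T A E₀ : Type) [Fintype A] (X E : Fin n → Type) [∀ i, Fintype (X i)] : Prop :=
  ∃ (a : T → E₀ → A → ℂ) (u : T → ∀ i, E i → X i → ℂ),
    Inj (fun (c : T × E₀ × (∀ i, E i)) (z : A × (∀ i, X i)) =>
      a c.1 c.2.1 z.1 * ∏ i, u c.1 i (c.2.2 i) (z.2 i))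

theorem FS.mono {n : ℕ} {T A E₀ T' A' E₀' : Type} [Fintype A] [Fintype A']
    {X E X' E' : Fin n → Type} [∀ i, Fintype (X i)] [∀ i, Fintype (X' i)]
    (h : FS n T A E₀ X E) (gT : T' → T) (hgT : Function.Surjective gT)
    (fA : A' → A) (hfA : Function.Injective fA) (gE : E₀' → E₀) (hgE : Function.Surjective gE)
    (fX : ∀ i, X' i → X i) (hfX : ∀ i, Function.Injective (fX i))
    (gX : ∀ i, E' i → E i) (hgX : ∀ i, Function.Surjective (gX i)) : FS n T' A' E₀' X' E' := by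
  obtain ⟨a, u, hau⟩ := h
  refine ⟨fun t k α => a (gT t) (gE k) (fA α), fun t i k x => u (gT t) i (gX i k) (fX i x), ?_⟩
  refine hau.comp (fun z => (fA z.1, fun i => fX i (z.2 i))) ?_
    (fun c => (gT c.1, gE c.2.1, fun i => gX i (c.2.2 i))) ?_ ?_
  · rintro ⟨α, x⟩ ⟨α', x'⟩ h
    simp only [Prod.mk.injEq] at h
    refine Prod.ext (hfA h.1) ?_
    funext i
    exact hfX i (congrFun h.2 i)
  · rintro ⟨t, k, l⟩
    obtain ⟨t', rfl⟩ := hgT t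
    obtain ⟨k', rfl⟩ := hgE k
    choose l' hl' using fun i => hgX i (l i)
    refine ⟨(t', k', l'), ?_⟩
    simp only [hl']
  · intro c z
    rfl

theorem FS.add {n : ℕ} {T₁ T₂ A₁ A₂ E₀ : Type} [Fintype A₁] [Fintype A₂]
    {X E : Fin n → Type} [∀ i, Fintype (X i)]
    (h₁ : FS n T₁ A₁ E₀ X E) (h₂ : FS n T₂ A₂ E₀ X E) :
    FS n (T₁ ⊕ T₂) (A₁ ⊕ A₂) E₀ X E := by
  obtain ⟨a₁, u₁, h₁⟩ := h₁
  obtain ⟨a₂, u₂, h₂⟩ := h₂
  refine ⟨Sum.elim (fun t k => Sum.elim (a₁ t k) (fun _ => 0))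
    (fun t k => Sum.elim (fun _ => 0) (a₂ t k)), Sum.elim u₁ u₂, ?_⟩
  refine (h₁.sum h₂).comp
    (fun z => Sum.elim (fun α => Sum.inl (α, z.2)) (fun α => Sum.inr (α, z.2)) z.1) ?_
    (fun c => Sum.elim (fun t => Sum.inl (t, c.2)) (fun t => Sum.inr (t, c.2)) c.1) ?_ ?_
  · rintro ⟨α | α, x⟩ ⟨α' | α', x'⟩ h
    · simp only [Sum.elim_inl, Sum.inl.injEq, Prod.mk.injEq] at h
      rw [h.1, h.2]
    · simp at h
    · simp at h
    · simp only [Sum.elim_inr, Sum.inr.injEq, Prod.mk.injEq] at h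
      rw [h.1, h.2]
  · rintro (⟨t, k⟩ | ⟨t, k⟩)
    · exact ⟨(Sum.inl t, k), rfl⟩
    · exact ⟨(Sum.inr t, k), rfl⟩
  · rintro ⟨t | t, k⟩ ⟨α | α, x⟩
    · rfl
    · simp [sumG]
    · simp [sumG]
    · rfl

/-- Adding one more factor. -/
theorem FS.succ {n : ℕ} {T₁ T₂ A₁ A₂ E₁ E₂ : Type} [Fintype A₁] [Fintype A₂]
    {X E : Fin (n + 1) → Type} [∀ i, Fintype (X i)]
    (h₁ : FS n T₁ A₁ E₁ (fun i => X i.succ) (fun i => E i.succ))
    (v : T₂ → E₂ → A₂ → ℂ) (w : T₂ → E 0 → X 0 → ℂ)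
    (h₂ : Inj (fun (c : T₂ × E₂ × E 0) (z : A₂ × X 0) => v c.1 c.2.1 z.1 * w c.1 c.2.2 z.2)) :
    FS (n + 1) (T₁ × T₂) (A₁ × A₂) (E₁ × E₂) X E := by
  obtain ⟨a, u, h₁⟩ := h₁
  refine ⟨fun t k α => a t.1 k.1 α.1 * v t.2 k.2 α.2,
    fun t i => Fin.cases (motive := fun i => E i → X i → ℂ) (w t.2) (fun i => u t.1 i) i, ?_⟩
  refine (h₁.prod h₂).comp
    (fun z => ((z.1.1, fun i => z.2 i.succ), (z.1.2, z.2 0))) ?_
    (fun c => ((c.1.1, c.2.1.1, fun i => c.2.2 i.succ), (c.1.2, c.2.1.2, c.2.2 0))) ?_ ?_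
  · rintro ⟨⟨α, β⟩, x⟩ ⟨⟨α', β'⟩, x'⟩ h
    simp only [Prod.mk.injEq] at h
    obtain ⟨⟨h1, h2⟩, h3, h4⟩ := h
    have h5 : x = x' := by
      funext i
      refine Fin.cases h4 (fun i => congrFun h2 i) i
    rw [h1, h3, h5]
  · rintro ⟨⟨t, k, l⟩, ⟨t', k', l'⟩⟩
    refine ⟨((t, t'), (k, k'), Fin.cases (motive := fun i => E i) l' l), ?_⟩
    rfl
  · intro c z
    simp only
    rw [Fin.prod_univ_succ]
    simp only [Fin.cases_zero, Fin.cases_succ]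
    ring

/-- Replication of the coordinates. -/
theorem FS.repl {n : ℕ} {T A E₀ B : Type} [Fintype A] [Fintype B] {X E Y : Fin n → Type}
    [∀ i, Fintype (X i)] [∀ i, Fintype (Y i)]
    (h : FS n T A E₀ X E) : FS n T (A × B) (E₀ × B) (fun i => X i × Y i) (fun i => E i × Y i) := by
  classical
  obtain ⟨a, u, h⟩ := h
  refine ⟨fun t k α => a t k.1 α.1 * if k.2 = α.2 then 1 else 0,
    fun t i k x => u t i k.1 x.1 * if k.2 = x.2 then 1 else 0, ?_⟩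
  refine (h.prod (inj_delta (F := ℂ) (Z := B × (∀ i, Y i)))).comp
    (fun z => ((z.1.1, fun i => (z.2 i).1), (z.1.2, fun i => (z.2 i).2))) ?_
    (fun c => ((c.1, c.2.1.1, fun i => (c.2.2 i).1), (c.2.1.2, fun i => (c.2.2 i).2))) ?_ ?_
  · rintro ⟨⟨α, β⟩, x⟩ ⟨⟨α', β'⟩, x'⟩ h
    simp only [Prod.mk.injEq] at h
    obtain ⟨⟨h1, h2⟩, h3, h4⟩ := h
    have h5 : x = x' := by
      funext i
      exact Prod.ext (congrFun h2 i) (congrFun h4 i)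
    rw [h1, h3, h5]
  · rintro ⟨⟨t, k, l⟩, ⟨k', l'⟩⟩
    exact ⟨(t, (k, k'), fun i => (l i, l' i)), rfl⟩
  · intro c z
    simp only
    rw [Finset.prod_mul_distrib, Fintype.prod_boole]
    have e : (if (c.2.1.2, fun i => (c.2.2 i).2) = (z.1.2, fun i => (z.2 i).2) then (1 : ℂ)
        else 0) = (if c.2.1.2 = z.1.2 then 1 else 0) *
          (if ∀ i, (c.2.2 i).2 = (z.2 i).2 then 1 else 0) := by
      simp only [Prod.mk.injEq, funext_iff]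
      by_cases h1 : c.2.1.2 = z.1.2
      · by_cases h2 : ∀ i, (c.2.2 i).2 = (z.2 i).2
        · rw [if_pos ⟨h1, h2⟩, if_pos h1, if_pos h2, mul_one]
        · rw [if_neg (fun h3 => h2 h3.2), if_neg h2, mul_zero]
      · rw [if_neg (fun h3 => h1 h3.1), if_neg h1, zero_mul]
    rw [e]
    ring_nf

/-- The numerical version. -/
def FN (n s a α : ℕ) (d e : Fin n → ℕ) : Prop :=
  FS n (Fin s) (Fin a) (Fin α) (fun i => Fin (d i)) (fun i => Fin (e i))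

theorem FN.restrict {n s a α : ℕ} {d d' e : Fin n → ℕ} (h : FN n s a α d e)
    (hd : ∀ i, d' i ≤ d i) : FN n s a α d' e :=
  FS.mono h id Function.surjective_id id Function.injective_id id Function.surjective_id
    (fun i => Fin.castLE (hd i)) (fun i => Fin.castLE_injective (hd i))
    (fun _ => id) (fun _ => Function.surjective_id)

theorem FN.add {n s₁ s₂ a₁ a₂ α : ℕ} {d e : Fin n → ℕ} (h₁ : FN n s₁ a₁ α d e)
    (h₂ : FN n s₂ a₂ α d e) : FN n (s₁ + s₂) (a₁ + a₂) α d e :=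
  FS.mono (FS.add h₁ h₂) finSumFinEquiv.symm finSumFinEquiv.symm.surjective
    finSumFinEquiv.symm finSumFinEquiv.symm.injective id Function.surjective_id
    (fun _ => id) (fun _ => Function.injective_id) (fun _ => id)
    (fun _ => Function.surjective_id)

theorem FN.repl {n s a α : ℕ} {d e : Fin n → ℕ} (h : FN n s a α d e) (b : ℕ) (y : Fin n → ℕ) :
    FN n s (a * b) (α * b) (fun i => d i * y i) (fun i => e i * y i) :=
  FS.mono (FS.repl (B := Fin b) (Y := fun i => Fin (y i)) h) id Function.surjective_id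
    finProdFinEquiv.symm finProdFinEquiv.symm.injective
    finProdFinEquiv.symm finProdFinEquiv.symm.surjective
    (fun _ => finProdFinEquiv.symm) (fun _ => finProdFinEquiv.symm.injective)
    (fun _ => finProdFinEquiv.symm) (fun _ => finProdFinEquiv.symm.surjective)

theorem FN.succ {n s₁ s₂ a₁ a₂ α₁ α₂ : ℕ} {d e : Fin (n + 1) → ℕ}
    (h₁ : FN n s₁ a₁ α₁ (fun i => d i.succ) (fun i => e i.succ)) (h₂ : B2 s₂ a₂ α₂ (d 0) (e 0)) :
    FN (n + 1) (s₁ * s₂) (a₁ * a₂) (α₁ * α₂) d e := by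
  obtain ⟨v, w, h₂⟩ := h₂
  exact FS.mono (FS.succ (X := fun i => Fin (d i)) (E := fun i => Fin (e i)) h₁ v w h₂)
    finProdFinEquiv.symm finProdFinEquiv.symm.surjective
    finProdFinEquiv.symm finProdFinEquiv.symm.injective
    finProdFinEquiv.symm finProdFinEquiv.symm.surjective
    (fun _ => id) (fun _ => Function.injective_id) (fun _ => id)
    (fun _ => Function.surjective_id)

/-- `s` products of subspaces span, the special factor having ratio at least `κ` and the others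
at least `ρ i`. -/
def Good (n s : ℕ) (κ : ℝ) (ρ : Fin n → ℝ) : Prop :=
  ∃ (a α : ℕ) (d e : Fin n → ℕ), 0 < α ∧ (∀ i, 0 < e i) ∧ κ * α ≤ a ∧ (∀ i, ρ i * e i ≤ d i) ∧
    FN n s a α d e

theorem Good.mono {n s : ℕ} {κ κ' : ℝ} {ρ : Fin n → ℝ} (h : Good n s κ ρ) (hκ : κ' ≤ κ) :
    Good n s κ' ρ := by
  obtain ⟨a, α, d, e, h1, h2, h3, h4, h5⟩ := h
  refine ⟨a, α, d, e, h1, h2, le_trans ?_ h3, h4, h5⟩
  exact mul_le_mul_of_nonneg_right hκ (Nat.cast_nonneg _)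

theorem good_zero (ρ : Fin 0 → ℝ) : Good 0 1 1 ρ := by
  refine ⟨1, 1, fun _ => 1, fun _ => 1, one_pos, fun i => i.elim0, by norm_num,
    fun i => i.elim0, fun _ _ _ => 1, fun _ i => i.elim0, ?_⟩
  intro φ hφ
  funext z
  have h := hφ (0, 0, fun i => i.elim0)
  have : Unique (Fin 1 × (∀ i : Fin 0, Fin 1)) := by
    refine ⟨⟨(0, fun i => i.elim0)⟩, ?_⟩
    rintro ⟨x, y⟩
    refine Prod.ext (Subsingleton.elim _ _) ?_
    funext i
    exact i.elim0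
  rw [Fintype.sum_unique] at h
  rw [Unique.eq_default z]
  simpa using h

theorem Good.add {n s₁ s₂ : ℕ} {κ₁ κ₂ : ℝ} {ρ : Fin n → ℝ} (h₁ : Good n s₁ κ₁ ρ)
    (h₂ : Good n s₂ κ₂ ρ) : Good n (s₁ + s₂) (κ₁ + κ₂) ρ := by
  obtain ⟨a₁, α₁, d₁, e₁, hα₁, he₁, ha₁, hd₁, hf₁⟩ := h₁
  obtain ⟨a₂, α₂, d₂, e₂, hα₂, he₂, ha₂, hd₂, hf₂⟩ := h₂
  have g₁ := (hf₁.repl α₂ e₂).restrict (d' := fun i => min (d₁ i * e₂ i) (d₂ i * e₁ i))
    (fun i => min_le_left _ _)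
  have g₂ := (hf₂.repl α₁ e₁).restrict (d' := fun i => min (d₁ i * e₂ i) (d₂ i * e₁ i))
    (fun i => min_le_right _ _)
  have e1 : (fun i => e₂ i * e₁ i) = fun i => e₁ i * e₂ i := by
    funext i
    exact mul_comm _ _
  rw [e1, mul_comm α₂ α₁] at g₂
  refine ⟨_, _, _, _, Nat.mul_pos hα₁ hα₂, fun i => Nat.mul_pos (he₁ i) (he₂ i), ?_, ?_,
    g₁.add g₂⟩
  · push_cast
    have h1 : κ₁ * α₁ * α₂ ≤ a₁ * α₂ := mul_le_mul_of_nonneg_right ha₁ (Nat.cast_nonneg _)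
    have h2 : κ₂ * α₂ * α₁ ≤ a₂ * α₁ := mul_le_mul_of_nonneg_right ha₂ (Nat.cast_nonneg _)
    linarith
  · intro i
    rw [Nat.cast_min, le_min_iff]
    push_cast
    constructor
    · have h1 : ρ i * e₁ i * e₂ i ≤ d₁ i * e₂ i :=
        mul_le_mul_of_nonneg_right (hd₁ i) (Nat.cast_nonneg _)
      linarith
    · have h1 : ρ i * e₂ i * e₁ i ≤ d₂ i * e₁ i :=
        mul_le_mul_of_nonneg_right (hd₂ i) (Nat.cast_nonneg _)
      linarith

theorem Good.succ {n s₁ s₂ : ℕ} {κ₁ κ₂ : ℝ} {ρ : Fin (n + 1) → ℝ}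
    (hκ₂ : 2 ≤ κ₂) (hρ : 2 ≤ ρ 0) (h₁ : Good n s₁ κ₁ (fun i => ρ i.succ))
    (h₂ : κ₂ * ρ 0 < s₂) : Good (n + 1) (s₁ * s₂) (κ₁ * κ₂) ρ := by
  obtain ⟨a₁, α₁, d₁, e₁, hα₁, he₁, ha₁, hd₁, hf₁⟩ := h₁
  obtain ⟨a₂, e₂, d₂, he₂, ha₂, hd₂, hf₂⟩ := b2_real hκ₂ hρ h₂
  refine ⟨a₁ * a₂, α₁ * e₂, Fin.cons d₂ d₁, Fin.cons e₂ e₁, Nat.mul_pos hα₁ he₂, ?_, ?_, ?_, ?_⟩
  · intro i
    refine Fin.cases he₂ (fun i => he₁ i) i
  · push_cast
    calc κ₁ * κ₂ * (α₁ * e₂) = (κ₁ * α₁) * (κ₂ * e₂) := by ring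
      _ ≤ a₁ * a₂ := mul_le_mul ha₁ ha₂ (by positivity) (Nat.cast_nonneg _)
  · intro i
    refine Fin.cases hd₂ (fun i => hd₁ i) i
  · apply FN.succ
    · exact hf₁
    · exact hf₂

end Pool.Agent.H95.GF
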