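import Pool.Agent.H95.GF.Main

/-!
Generic families: one spanning configuration gives arbitrarily many families of subspaces such
that the configuration formed by any `n` different families is spanning.
-/

namespace Pool.Agent.H95.GF

open MvPolynomial

theorem exists_generic_family {n s d e : ℕ} (h : Fill n s (fun _ => d) (fun _ => e)) (M : ℕ) :
    ∃ U : Fin M → Fin s → Fin e → Fin d → ℂ, ∀ b : Fin n → Fin M, Function.Injective b →
      Inj (fun (c : Fin s × (Fin n → Fin e)) (z : Fin n → Fin d) =>
        ∏ i, U (b i) c.1 (c.2 i) (z i)) := by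
  classical
  obtain ⟨u, hu⟩ := h
  obtain ⟨N, hN⟩ := hu.exists_inverse
  set B : Type := Fin M × Fin s × Fin e × Fin d with hB
  set A : (Fin n → Fin M) → Matrix (Fin n → Fin d) (Fin n → Fin d) (MvPolynomial B ℂ) := fun b =>
    Matrix.of fun z z' => ∑ c : Fin s × (Fin n → Fin e),
      (∏ i, X (b i, c.1, c.2 i, z i)) * C (N c z') with hA
  have hev : ∀ (b : Fin n → Fin M) (y : B → ℂ), eval y (A b).det =
      (Matrix.of fun z z' => ∑ c : Fin s × (Fin n → Fin e),
        (∏ i, y (b i, c.1, c.2 i, z i)) * N c z').det := by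
    intro b y
    rw [RingHom.map_det]
    congr 1
    ext z z'
    rw [RingHom.mapMatrix_apply, Matrix.map_apply, hA]
    simp only [Matrix.of_apply, map_sum, map_mul, map_prod, eval_X, eval_C]
  have hne : ∀ b : Fin n → Fin M, Function.Injective b → (A b).det ≠ 0 := by
    intro b hb h0
    have h1 := hev b (fun x => Function.extend b (fun i => u x.2.1 i x.2.2.1 x.2.2.2) 0 x.1)
    rw [h0, map_zero] at h1
    have h2 : (Matrix.of fun z z' => ∑ c : Fin s × (Fin n → Fin e),
        (∏ i, Function.extend b (fun i' => u c.1 i' (c.2 i) (z i)) 0 (b i)) * N c z') =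
        (1 : Matrix (Fin n → Fin d) (Fin n → Fin d) ℂ) := by
      ext z z'
      rw [Matrix.of_apply, Matrix.one_apply, ← hN z z']
      refine Finset.sum_congr rfl fun c _ => ?_
      congr 1
      refine Finset.prod_congr rfl fun i _ => ?_
      rw [hb.extend_apply]
    simp only at h1
    rw [h2, Matrix.det_one] at h1
    exact zero_ne_one h1
  set p : MvPolynomial B ℂ :=
    ∏ b ∈ Finset.univ.filter fun b : Fin n → Fin M => Function.Injective b, (A b).det with hp
  have hp0 : p ≠ 0 := by
    rw [hp, Finset.prod_ne_zero_iff]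
    intro b hb
    exact hne b (Finset.mem_filter.mp hb).2
  obtain ⟨y, hy⟩ : ∃ y : B → ℂ, eval y p ≠ 0 := by
    by_contra hcon
    push Not at hcon
    apply hp0
    apply MvPolynomial.funext
    intro y
    rw [hcon y, map_zero]
  refine ⟨fun a t k x => y (a, t, k, x), fun b hb => ?_⟩
  refine inj_of_det _ N ?_
  rw [hp, map_prod, Finset.prod_ne_zero_iff] at hy
  have h1 := hy b (Finset.mem_filter.mpr ⟨Finset.mem_univ _, hb⟩)
  rw [hev] at h1
  exact h1

end Pool.Agent.H95.GF
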