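import Mathlib

/-!
Families of vectors spanning a coordinate space, expressed by duality, and operations on them.
-/

namespace Pool.Agent.H95.GF

variable {F : Type} [Field F]

/-- The vectors `G c` span the coordinate space `Z → F`: no nonzero `φ` is orthogonal to all of
them. -/
def Inj {Z C : Type} [Fintype Z] (G : C → Z → F) : Prop :=
  ∀ φ : Z → F, (∀ c, ∑ z, φ z * G c z = 0) → φ = 0

theorem Inj.comp {Z Z' C C' : Type} [Fintype Z] [Fintype Z'] {G : C → Z → F} {G' : C' → Z' → F}
    (h : Inj G) (f : Z' → Z) (hf : Function.Injective f) (g : C' → C)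
    (hg : Function.Surjective g) (hG : ∀ c' z', G' c' z' = G (g c') (f z')) : Inj G' := by
  classical
  intro φ' hφ'
  have h0 : (fun z => ∑ z', if f z' = z then φ' z' else 0) = (0 : Z → F) := by
    apply h
    intro c
    obtain ⟨c', rfl⟩ := hg c
    have h1 := hφ' c'
    calc ∑ z, (∑ z', if f z' = z then φ' z' else 0) * G (g c') z
        = ∑ z, ∑ z', (if f z' = z then φ' z' * G (g c') z else 0) := by
          refine Finset.sum_congr rfl fun z _ => ?_
          rw [Finset.sum_mul]
          refine Finset.sum_congr rfl fun z' _ => ?_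
          rw [ite_mul, zero_mul]
      _ = ∑ z', ∑ z, (if f z' = z then φ' z' * G (g c') z else 0) := Finset.sum_comm
      _ = ∑ z', φ' z' * G' c' z' := by
          refine Finset.sum_congr rfl fun z' _ => ?_
          rw [Finset.sum_ite_eq, if_pos (Finset.mem_univ _), hG]
      _ = 0 := h1
  funext z'
  have h2 := congrFun h0 (f z')
  simp only [Pi.zero_apply] at h2
  rw [Finset.sum_eq_single z'] at h2
  · rwa [if_pos rfl] at h2
  · intro b _ hb
    rw [if_neg (fun h3 => hb (hf h3))]
  · intro h3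
    exact absurd (Finset.mem_univ _) h3

theorem Inj.prod {Z₁ Z₂ C₁ C₂ : Type} [Fintype Z₁] [Fintype Z₂] {G₁ : C₁ → Z₁ → F}
    {G₂ : C₂ → Z₂ → F} (h₁ : Inj G₁) (h₂ : Inj G₂) :
    Inj (fun (c : C₁ × C₂) (z : Z₁ × Z₂) => G₁ c.1 z.1 * G₂ c.2 z.2) := by
  intro φ hφ
  have key : ∀ c₂, (fun z₁ => ∑ z₂, φ (z₁, z₂) * G₂ c₂ z₂) = (0 : Z₁ → F) := by
    intro c₂
    apply h₁
    intro c₁
    have h3 := hφ (c₁, c₂)
    rw [Fintype.sum_prod_type] at h3
    rw [← h3]
    refine Finset.sum_congr rfl fun z₁ _ => ?_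
    rw [Finset.sum_mul]
    refine Finset.sum_congr rfl fun z₂ _ => ?_
    simp only
    ring
  funext z
  obtain ⟨z₁, z₂⟩ := z
  have h4 : (fun z₂ => φ (z₁, z₂)) = (0 : Z₂ → F) := by
    apply h₂
    intro c₂
    exact congrFun (key c₂) z₁
  exact congrFun h4 z₂

/-- Block diagonal family. -/
def sumG {Z₁ Z₂ C₁ C₂ : Type} (G₁ : C₁ → Z₁ → F) (G₂ : C₂ → Z₂ → F) :
    C₁ ⊕ C₂ → Z₁ ⊕ Z₂ → F :=
  Sum.elim (fun c => Sum.elim (G₁ c) (fun _ => 0)) (fun c => Sum.elim (fun _ => 0) (G₂ c))

theorem Inj.sum {Z₁ Z₂ C₁ C₂ : Type} [Fintype Z₁] [Fintype Z₂] {G₁ : C₁ → Z₁ → F}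
    {G₂ : C₂ → Z₂ → F} (h₁ : Inj G₁) (h₂ : Inj G₂) : Inj (sumG G₁ G₂) := by
  intro φ hφ
  have e1 : (fun z => φ (Sum.inl z)) = (0 : Z₁ → F) := by
    apply h₁
    intro c
    have h3 := hφ (Sum.inl c)
    rw [Fintype.sum_sum_type] at h3
    simpa [sumG] using h3
  have e2 : (fun z => φ (Sum.inr z)) = (0 : Z₂ → F) := by
    apply h₂
    intro c
    have h3 := hφ (Sum.inr c)
    rw [Fintype.sum_sum_type] at h3
    simpa [sumG] using h3
  funext z
  rcases z with z | z
  · exact congrFun e1 z
  · exact congrFun e2 z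

theorem inj_delta {Z : Type} [Fintype Z] [DecidableEq Z] :
    Inj (fun (c z : Z) => if c = z then (1 : F) else 0) := by
  intro φ hφ
  funext c
  have h := hφ c
  rw [Finset.sum_eq_single c] at h
  · simpa using h
  · intro b _ hb
    simp only
    rw [if_neg (Ne.symm hb), mul_zero]
  · intro h3
    exact absurd (Finset.mem_univ _) h3

/-- A spanning family has a right inverse. -/
theorem Inj.exists_inverse {Z C : Type} [Fintype Z] [DecidableEq Z] [Fintype C]
    {G : C → Z → F} (h : Inj G) :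
    ∃ N : C → Z → F, ∀ z z', ∑ c, G c z * N c z' = if z = z' then 1 else 0 := by
  classical
  let L : (Z → F) →ₗ[F] (C → F) :=
    { toFun := fun φ c => ∑ z, φ z * G c z
      map_add' := fun φ ψ => by
        funext c
        simp only [Pi.add_apply, add_mul, Finset.sum_add_distrib]
      map_smul' := fun a φ => by
        funext c
        simp only [Pi.smul_apply, smul_eq_mul, RingHom.id_apply, Finset.mul_sum, mul_assoc] }
  have hL : LinearMap.ker L = ⊥ := by
    rw [LinearMap.ker_eq_bot']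
    intro φ hφ
    apply h
    intro c
    exact congrFun hφ c
  obtain ⟨L', hL'⟩ := L.exists_leftInverse_of_injective hL
  refine ⟨fun c z' => L' (Pi.single c 1) z', fun z z' => ?_⟩
  have h1 : L (Pi.single z 1) = ∑ c, G c z • (Pi.single c 1 : C → F) := by
    funext c
    have h2 : L (Pi.single z 1) c = ∑ z₁, (Pi.single z 1 : Z → F) z₁ * G c z₁ := rfl
    rw [h2, Finset.sum_apply, Finset.sum_eq_single z, Pi.single_eq_same, one_mul,
      Finset.sum_eq_single c]
    · rw [Pi.smul_apply, Pi.single_eq_same, smul_eq_mul, mul_one]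
    · intro b _ hb
      rw [Pi.smul_apply, Pi.single_eq_of_ne (Ne.symm hb), smul_zero]
    · intro h3
      exact absurd (Finset.mem_univ _) h3
    · intro b _ hb
      rw [Pi.single_eq_of_ne hb, zero_mul]
    · intro h3
      exact absurd (Finset.mem_univ _) h3
  have h3 : L' (L (Pi.single z 1)) = Pi.single z 1 := by
    have := LinearMap.congr_fun hL' (Pi.single z 1)
    simpa using this
  rw [h1, map_sum] at h3
  have h4 := congrFun h3 z'
  rw [Finset.sum_apply] at h4
  simp only [map_smul, Pi.smul_apply, smul_eq_mul] at h4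
  rw [h4, Pi.single_apply]
  by_cases hz : z = z'
  · rw [if_pos hz, if_pos hz.symm]
  · rw [if_neg hz, if_neg (Ne.symm hz)]

theorem inj_of_det {Z C : Type} [Fintype Z] [DecidableEq Z] [Fintype C] (G N : C → Z → F)
    (h : (Matrix.of fun z z' => ∑ c, G c z * N c z').det ≠ 0) : Inj G := by
  intro φ hφ
  apply Matrix.eq_zero_of_vecMul_eq_zero h
  funext z'
  rw [Matrix.vecMul, dotProduct, Pi.zero_apply]
  simp only [Matrix.of_apply]
  calc ∑ z, φ z * ∑ c, G c z * N c z' = ∑ z, ∑ c, φ z * (G c z * N c z') := by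
        refine Finset.sum_congr rfl fun z _ => ?_
        rw [Finset.mul_sum]
    _ = ∑ c, ∑ z, φ z * (G c z * N c z') := Finset.sum_comm
    _ = ∑ c, (∑ z, φ z * G c z) * N c z' := by
        refine Finset.sum_congr rfl fun c _ => ?_
        rw [Finset.sum_mul]
        refine Finset.sum_congr rfl fun z _ => ?_
        ring
    _ = 0 := by
        refine Finset.sum_eq_zero fun c _ => ?_
        rw [hφ c, zero_mul]

/-- Lifting from `ZMod p` to characteristic zero. -/
theorem inj_lift {p : ℕ} [Fact p.Prime] {Z C : Type} [Fintype Z] [DecidableEq Z] [Fintype C]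
    (G : C → Z → ℤ) (h : Inj (fun c z => ((G c z : ℤ) : ZMod p))) :
    Inj (fun c z => ((G c z : ℤ) : ℂ)) := by
  obtain ⟨N, hN⟩ := h.exists_inverse
  choose N' hN' using fun c z => ZMod.intCast_surjective (N c z)
  set B : Matrix Z Z ℤ := Matrix.of fun z z' => ∑ c, G c z * N' c z' with hB
  have h1 : ((B.det : ℤ) : ZMod p) = 1 := by
    have h2 : ((B.det : ℤ) : ZMod p) = (B.map (Int.castRingHom (ZMod p))).det := by
      have := (Int.castRingHom (ZMod p)).map_det B
      simpa using this
    rw [h2]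
    have h3 : B.map (Int.castRingHom (ZMod p)) = 1 := by
      ext z z'
      rw [Matrix.map_apply, hB, Matrix.of_apply, map_sum, Matrix.one_apply, ← hN z z']
      refine Finset.sum_congr rfl fun c _ => ?_
      rw [map_mul]
      simp only [eq_intCast, hN']
    rw [h3, Matrix.det_one]
  have h4 : B.det ≠ 0 := by
    intro h5
    rw [h5, Int.cast_zero] at h1
    exact zero_ne_one h1
  refine inj_of_det _ (fun c z => ((N' c z : ℤ) : ℂ)) ?_
  have h6 : (Matrix.of fun z z' => ∑ c, ((G c z : ℤ) : ℂ) * ((N' c z' : ℤ) : ℂ)) =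
      B.map (Int.castRingHom ℂ) := by
    ext z z'
    rw [Matrix.map_apply, hB, Matrix.of_apply, Matrix.of_apply, map_sum]
    refine Finset.sum_congr rfl fun c _ => ?_
    rw [map_mul]
    simp only [eq_intCast]
  rw [h6]
  have h7 := (Int.castRingHom ℂ).map_det B
  rw [RingHom.mapMatrix_apply] at h7
  rw [← h7, eq_intCast]
  exact_mod_cast h4

end Pool.Agent.H95.GF
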