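import Pool.Agent.H95.GF.Fill

/-!
The numerical semigroup argument and the main spanning theorem.
-/

namespace Pool.Agent.H95.GF

theorem exists_repr {p q s : ℕ} (hp : 1 ≤ p) (hs : p * q + (q + p - 1) * (p + 1) ≤ s) :
    ∃ x y : ℕ, q ≤ x ∧ q ≤ y ∧ s = x * p + y * (p + 1) := by
  have hqs : q ≤ s := by
    have h1 : q ≤ p * q := Nat.le_mul_of_pos_left q hp
    omega
  set y := q + (s - q) % p with hy
  have hlt : (s - q) % p < p := Nat.mod_lt _ hp
  have hyle : y ≤ q + p - 1 := by omega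
  have hdm := Nat.div_add_mod (s - q) p
  have h1 : s = y + p * ((s - q) / p) := by omega
  have h2 : p * q + y * (p + 1) ≤ s := by
    refine le_trans ?_ hs
    apply Nat.add_le_add_left
    exact Nat.mul_le_mul_right _ hyle
  have h3 : p * (q + y) ≤ p * ((s - q) / p) := by
    have h4 : y * (p + 1) = p * y + y := by ring
    have h5 : p * (q + y) = p * q + p * y := by ring
    omega
  have h6 : q + y ≤ (s - q) / p := Nat.le_of_mul_le_mul_left h3 hp
  refine ⟨(s - q) / p - y, y, by omega, by omega, ?_⟩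
  obtain ⟨w, hw⟩ := Nat.exists_eq_add_of_le (show y ≤ (s - q) / p by omega)
  rw [hw, Nat.add_sub_cancel_left]
  rw [hw] at h1
  rw [h1]
  ring

theorem exists_repr' {S u s : ℕ} (hS : 1 ≤ S) (hu : 1 ≤ u) (hs : 3 * S * u + S + u ≤ s) :
    ∃ x₁ y₁ x₂ y₂ : ℕ, S ≤ x₁ ∧ u ≤ y₁ ∧ S ≤ x₂ ∧ u ≤ y₂ ∧ s = x₁ * y₁ + x₂ * y₂ := by
  rcases Nat.le_total u S with h | h
  · obtain ⟨x, y, hx, hy, he⟩ := exists_repr (p := u) (q := S) (s := s) hu (by
      obtain ⟨w, rfl⟩ := Nat.exists_eq_add_of_le h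
      have h1 : u + w + u - 1 = 2 * u + w - 1 := by omega
      rw [h1]
      obtain ⟨v, rfl⟩ := Nat.exists_eq_add_of_le hu
      have h2 : 2 * (1 + v) + w - 1 = 1 + 2 * v + w := by omega
      rw [h2]
      refine le_trans ?_ hs
      nlinarith)
    exact ⟨x, u, y, u + 1, hx, le_rfl, hy, Nat.le_succ u, he⟩
  · obtain ⟨x, y, hx, hy, he⟩ := exists_repr (p := S) (q := u) (s := s) hS (by
      obtain ⟨w, rfl⟩ := Nat.exists_eq_add_of_le h
      have h1 : S + w + S - 1 = 2 * S + w - 1 := by omega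
      rw [h1]
      obtain ⟨v, rfl⟩ := Nat.exists_eq_add_of_le hS
      have h2 : 2 * (1 + v) + w - 1 = 1 + 2 * v + w := by omega
      rw [h2]
      refine le_trans ?_ hs
      nlinarith)
    exact ⟨S, x, S + 1, y, le_rfl, hx, Nat.le_succ S, hy, by rw [he]; ring⟩

/-- One product. -/
theorem good_prod {n x y : ℕ} {ρ : Fin (n + 1) → ℝ} (hρ : ∀ i, 2 ≤ ρ i) (hx : 1 ≤ x)
    (H : ∀ κ : ℝ, 0 ≤ κ → κ * ∏ i : Fin n, ρ i.succ < x → Good n x κ (fun i => ρ i.succ))
    (hy : 2 * ρ 0 < y) {κ : ℝ} (hκ : 0 ≤ κ) (h : κ * ∏ i, ρ i < x * y) :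
    Good (n + 1) (x * y) κ ρ := by
  rw [Fin.prod_univ_succ] at h
  set N : ℝ := ∏ i : Fin n, ρ i.succ with hN
  have hN0 : 0 < N := Finset.prod_pos fun i _ => by linarith [hρ i.succ]
  have hρ0 : 0 < ρ 0 := by linarith [hρ 0]
  have hx' : (1 : ℝ) ≤ x := by exact_mod_cast hx
  have hy' : (0 : ℝ) < y := by linarith
  have hxy : (0 : ℝ) < x * y := by positivity
  set θ : ℝ := κ * (ρ 0 * N) / (x * y) with hθ
  have hθ0 : 0 ≤ θ := by positivity
  have hθ1 : θ < 1 := by
    rw [hθ, div_lt_one hxy]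
    exact h
  set t : ℝ := max ((1 + θ) / 2) (2 * ρ 0 / y) with ht
  have ht1 : t < 1 := by
    rw [ht, max_lt_iff]
    constructor
    · linarith
    · rw [div_lt_one hy']
      exact hy
  have ht2 : (1 + θ) / 2 ≤ t := le_max_left _ _
  have ht3 : 2 * ρ 0 / y ≤ t := le_max_right _ _
  have ht0 : 0 < t := by linarith
  have h1 : κ ≤ (t * x / N) * (t * y / ρ 0) := by
    have h2 : κ = θ * (x * y) / (ρ 0 * N) := by
      rw [hθ]
      field_simp
    have h3 : (t * x / N) * (t * y / ρ 0) = t ^ 2 * (x * y) / (ρ 0 * N) := by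
      field_simp
    rw [h2, h3]
    apply div_le_div_of_nonneg_right _ (by positivity)
    apply mul_le_mul_of_nonneg_right _ hxy.le
    nlinarith
  refine Good.mono ?_ h1
  apply Good.succ
  · rw [le_div_iff₀ hρ0]
    rw [div_le_iff₀ hy'] at ht3
    exact ht3
  · exact hρ 0
  · apply H
    · positivity
    · rw [div_mul_cancel₀ _ hN0.ne']
      nlinarith
  · rw [div_mul_cancel₀ _ hρ0.ne']
    nlinarith

theorem good_all (n : ℕ) : ∀ ρ : Fin (n + 1) → ℝ, (∀ i, 2 ≤ ρ i) →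
    ∃ S : ℕ, 3 * (S : ℝ) + 1 ≤ ∏ i, (6 * ρ i + 4) ∧ 1 ≤ S ∧
      ∀ s : ℕ, S ≤ s → ∀ κ : ℝ, 0 ≤ κ → κ * ∏ i, ρ i < s → Good (n + 1) s κ ρ := by
  induction n with
  | zero =>
    intro ρ hρ
    refine ⟨⌊2 * ρ 0⌋₊ + 1, ?_, by omega, ?_⟩
    · rw [Fin.prod_univ_one]
      have h1 := Nat.floor_le (show 0 ≤ 2 * ρ 0 by linarith [hρ 0])
      push_cast
      linarith
    · intro s hs κ hκ h
      have h1 := Nat.lt_floor_add_one (2 * ρ 0)
      have h2 : (((⌊2 * ρ 0⌋₊ + 1 : ℕ)) : ℝ) ≤ s := by exact_mod_cast hs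
      rw [Nat.cast_add, Nat.cast_one] at h2
      have h3 : (1 : ℝ) * s = ((1 * s : ℕ) : ℝ) := by push_cast; ring
      have h4 := good_prod (n := 0) (x := 1) (y := s) hρ le_rfl (fun κ' _ hκ' => by
        refine (good_zero _).mono ?_
        simp at hκ'
        exact hκ'.le) (by linarith) hκ (by simpa using h)
      rwa [one_mul] at h4
  | succ n ih =>
    intro ρ hρ
    obtain ⟨S, hS1, hS2, hS3⟩ := ih (fun i => ρ i.succ) fun i => hρ i.succ
    have hρ0 : 0 < ρ 0 := by linarith [hρ 0]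
    set u := ⌊2 * ρ 0⌋₊ + 1 with hu
    have hu1 : 2 * ρ 0 < u := by
      rw [hu]
      push_cast
      exact Nat.lt_floor_add_one _
    have hu2 : 3 * (u : ℝ) + 1 ≤ 6 * ρ 0 + 4 := by
      have h1 := Nat.floor_le (show 0 ≤ 2 * ρ 0 by linarith)
      rw [hu]
      push_cast
      linarith
    refine ⟨3 * S * u + S + u, ?_, by omega, ?_⟩
    · rw [Fin.prod_univ_succ]
      push_cast
      calc 3 * (3 * (S : ℝ) * u + S + u) + 1 = (3 * u + 1) * (3 * S + 1) := by ring
        _ ≤ (6 * ρ 0 + 4) * ∏ i : Fin (n + 1), (6 * ρ i.succ + 4) :=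
          mul_le_mul hu2 hS1 (by positivity) (by linarith)
    · intro s hs κ hκ h
      obtain ⟨x₁, y₁, x₂, y₂, hx₁, hy₁, hx₂, hy₂, he⟩ := exists_repr' hS2 (by omega) hs
      have hs0 : (0 : ℝ) < s := by
        have : 0 < s := by omega
        exact_mod_cast this
      have hp : ∀ x y : ℕ, S ≤ x → u ≤ y →
          Good (n + 1 + 1) (x * y) (κ * (x * y / s)) ρ := by
        intro x y hx hy
        have hxy : (0 : ℝ) < (x : ℝ) * y := by
          have : 0 < x * y := Nat.mul_pos (by omega) (by omega)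
          exact_mod_cast this
        refine good_prod hρ (by omega) (fun κ' h1 h2 => hS3 x hx κ' h1 h2) ?_ (by positivity) ?_
        · refine lt_of_lt_of_le hu1 ?_
          exact_mod_cast hy
        · have h1 : κ * (x * y / s) * ∏ i, ρ i = (κ * ∏ i, ρ i) / s * (x * y) := by
            field_simp
          rw [h1]
          have h2 : (κ * ∏ i, ρ i) / s < 1 := by
            rw [div_lt_one hs0]
            exact h
          nlinarith
      have h1 := (hp x₁ y₁ hx₁ hy₁).add (hp x₂ y₂ hx₂ hy₂)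
      rw [← he] at h1
      refine h1.mono ?_
      have h2 : κ * (x₁ * y₁ / s) + κ * (x₂ * y₂ / s) = κ * (((x₁ * y₁ + x₂ * y₂ : ℕ) : ℝ) / s) := by
        push_cast
        ring
      rw [h2, ← he, div_self hs0.ne', mul_one]

/-- Spanning products of subspaces: all factors on the same footing. -/
def Fill (n s : ℕ) (d e : Fin n → ℕ) : Prop :=
  ∃ u : Fin s → ∀ i, Fin (e i) → Fin (d i) → ℂ,
    Inj (fun (c : Fin s × (∀ i, Fin (e i))) (z : ∀ i, Fin (d i)) => ∏ i, u c.1 i (c.2 i) (z i))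

theorem fill_of_FN {n s : ℕ} {d e : Fin (n + 1) → ℕ}
    (h : FN n s (d 0) (e 0) (fun i => d i.succ) (fun i => e i.succ)) : Fill (n + 1) s d e := by
  obtain ⟨a, u, h⟩ := h
  refine ⟨fun t i => Fin.cases (motive := fun i => Fin (e i) → Fin (d i) → ℂ) (a t)
    (fun i => u t i) i, ?_⟩
  refine h.comp (fun z => (z 0, fun i => z i.succ)) ?_
    (fun c => (c.1, c.2 0, fun i => c.2 i.succ)) ?_ ?_
  · intro z z' h
    simp only [Prod.mk.injEq] at h
    funext i
    refine Fin.cases h.1 (fun i => congrFun h.2 i) i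
  · rintro ⟨t, k, l⟩
    exact ⟨(t, Fin.cases (motive := fun i => Fin (e i)) k l), rfl⟩
  · intro c z
    simp only
    rw [Fin.prod_univ_succ]
    rfl

theorem Fill.restrict {n s : ℕ} {d d' e : Fin n → ℕ} (h : Fill n s d e)
    (hd : ∀ i, d' i ≤ d i) : Fill n s d' e := by
  obtain ⟨u, hu⟩ := h
  refine ⟨fun t i k x => u t i k (Fin.castLE (hd i) x), ?_⟩
  refine hu.comp (fun z i => Fin.castLE (hd i) (z i)) ?_ id Function.surjective_id ?_
  · intro z z' h
    funext i
    exact Fin.castLE_injective (hd i) (congrFun h i)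
  · intro c z
    rfl

theorem Fill.repl {n s : ℕ} {d e : Fin n → ℕ} (h : Fill n s d e) (y : Fin n → ℕ) :
    Fill n s (fun i => d i * y i) (fun i => e i * y i) := by
  classical
  obtain ⟨u, hu⟩ := h
  refine ⟨fun t i k x => u t i (finProdFinEquiv.symm k).1 (finProdFinEquiv.symm x).1 *
    if (finProdFinEquiv.symm k).2 = (finProdFinEquiv.symm x).2 then 1 else 0, ?_⟩
  refine (hu.prod (inj_delta (F := ℂ) (Z := ∀ i, Fin (y i)))).comp
    (fun z => (fun i => (finProdFinEquiv.symm (z i)).1, fun i => (finProdFinEquiv.symm (z i)).2)) ?_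
    (fun c => ((c.1, fun i => (finProdFinEquiv.symm (c.2 i)).1),
      fun i => (finProdFinEquiv.symm (c.2 i)).2)) ?_ ?_
  · intro z z' h
    simp only [Prod.mk.injEq] at h
    funext i
    apply finProdFinEquiv.symm.injective
    exact Prod.ext (congrFun h.1 i) (congrFun h.2 i)
  · rintro ⟨⟨t, k⟩, l⟩
    refine ⟨(t, fun i => finProdFinEquiv (k i, l i)), ?_⟩
    simp
  · intro c z
    simp only
    rw [Finset.prod_mul_distrib, Fintype.prod_boole]
    by_cases h : ∀ i, (finProdFinEquiv.symm (c.2 i)).2 = (finProdFinEquiv.symm (z i)).2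
    · rw [if_pos h, if_pos (funext h)]
    · rw [if_neg h, if_neg (fun h' => h (fun i => congrFun h' i))]

/-- The main spanning theorem: in `N + 2` factors, with ratios `ρ i ≥ 3 * 6 ^ N` and
`∏ ρ i < s`, `s` subspaces suffice. -/
theorem fill_main {N s : ℕ} {ρ : Fin (N + 2) → ℝ} (hρ : ∀ i, 3 * 6 ^ N ≤ ρ i)
    (hs : ∏ i, ρ i < s) : ∃ d e : Fin (N + 2) → ℕ, (∀ i, 0 < e i) ∧ (∀ i, ρ i * e i ≤ d i) ∧
      Fill (N + 2) s d e := by
  have h6 : (1 : ℝ) ≤ 6 ^ N := one_le_pow₀ (by norm_num)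
  have hρ2 : ∀ i, 2 ≤ ρ i := fun i => by linarith [hρ i]
  obtain ⟨S, hS1, _, hS3⟩ := good_all N (fun i => ρ i.succ) fun i => hρ2 i.succ
  have hprod : ∏ i : Fin (N + 1), (6 * ρ i.succ + 4) ≤ 3 * ∏ i, ρ i := by
    rw [Fin.prod_univ_succ (f := ρ)]
    set x : ℝ := 2 / (9 * 6 ^ N) with hx
    have hx0 : 0 < x := by positivity
    have h1 : ∀ i : Fin (N + 1), 6 * ρ i.succ + 4 ≤ (6 * (1 + x)) * ρ i.succ := by
      intro i
      have h2 : x * (3 * 6 ^ N) = 2 / 3 := by
        rw [hx]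
        field_simp
        norm_num
      have h3 : x * (3 * 6 ^ N) ≤ x * ρ i.succ := mul_le_mul_of_nonneg_left (hρ i.succ) hx0.le
      nlinarith
    have h2 : ∏ i : Fin (N + 1), (6 * ρ i.succ + 4) ≤
        (6 * (1 + x)) ^ (N + 1) * ∏ i : Fin (N + 1), ρ i.succ := by
      calc ∏ i : Fin (N + 1), (6 * ρ i.succ + 4) ≤
            ∏ i : Fin (N + 1), ((6 * (1 + x)) * ρ i.succ) :=
            Finset.prod_le_prod (fun i _ => by linarith [hρ2 i.succ]) fun i _ => h1 i
        _ = (6 * (1 + x)) ^ (N + 1) * ∏ i : Fin (N + 1), ρ i.succ := by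
            rw [Finset.prod_mul_distrib, Finset.prod_const, Finset.card_univ, Fintype.card_fin]
    have hP : 0 < ∏ i : Fin (N + 1), ρ i.succ := Finset.prod_pos fun i _ => by linarith [hρ2 i.succ]
    have h3 : (6 * (1 + x)) ^ (N + 1) ≤ 3 * ρ 0 := by
      have h4 : (1 + x) ^ (N + 1) ≤ 3 / 2 := by
        have h5 : ∀ k : ℕ, (1 + x) ^ k ≤ 1 + (2 ^ k - 1) * x := by
          intro k
          have hx1 : x ≤ 1 := by
            rw [hx, div_le_one (by positivity)]
            linarith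
          induction k with
          | zero => simp
          | succ k ih =>
            have h6 : (1 : ℝ) ≤ 2 ^ k := one_le_pow₀ (by norm_num)
            calc (1 + x) ^ (k + 1) = (1 + x) ^ k * (1 + x) := pow_succ _ _
              _ ≤ (1 + (2 ^ k - 1) * x) * (1 + x) := mul_le_mul_of_nonneg_right ih (by linarith)
              _ = 1 + 2 ^ k * x + (2 ^ k - 1) * (x * x) := by ring
              _ ≤ 1 + 2 ^ k * x + (2 ^ k - 1) * (1 * x) := by
                  have : x * x ≤ 1 * x := mul_le_mul_of_nonneg_right hx1 hx0.le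
                  have h7 : (0 : ℝ) ≤ 2 ^ k - 1 := by linarith
                  linarith [mul_le_mul_of_nonneg_left this h7]
              _ = 1 + (2 ^ (k + 1) - 1) * x := by ring
        refine (h5 (N + 1)).trans ?_
        have h8 : (2 : ℝ) ^ (N + 1) * x ≤ 4 / 9 := by
          have h9 : (2 : ℝ) ^ N ≤ 6 ^ N := pow_le_pow_left₀ (by norm_num) (by norm_num) N
          rw [hx, mul_div_assoc', div_le_div_iff₀ (by positivity) (by norm_num), pow_succ]
          linarith
        linarith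
      rw [mul_pow]
      have h10 : (6 : ℝ) ^ (N + 1) = 6 * 6 ^ N := pow_succ' _ _
      have h11 := hρ 0
      calc (6 : ℝ) ^ (N + 1) * (1 + x) ^ (N + 1) ≤ 6 ^ (N + 1) * (3 / 2) :=
            mul_le_mul_of_nonneg_left h4 (by positivity)
        _ = 3 * (3 * 6 ^ N) := by
            rw [h10]
            ring
        _ ≤ 3 * ρ 0 := by linarith
    calc ∏ i : Fin (N + 1), (6 * ρ i.succ + 4) ≤
          (6 * (1 + x)) ^ (N + 1) * ∏ i : Fin (N + 1), ρ i.succ := h2
      _ ≤ (3 * ρ 0) * ∏ i : Fin (N + 1), ρ i.succ := mul_le_mul_of_nonneg_right h3 hP.le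
      _ = 3 * (ρ 0 * ∏ i : Fin (N + 1), ρ i.succ) := by ring
  have hSs : S ≤ s := by
    have h1 : (S : ℝ) < s := by linarith
    exact_mod_cast h1.le
  have h1 := hS3 s hSs (ρ 0) (by linarith [hρ2 0]) (by
    rw [Fin.prod_univ_succ] at hs
    exact hs)
  obtain ⟨a, α, d, e, hα, he, ha, hd, hf⟩ := h1
  refine ⟨Fin.cons a d, Fin.cons α e, ?_, ?_, ?_⟩
  · intro i
    refine Fin.cases hα (fun i => he i) i
  · intro i
    refine Fin.cases ha (fun i => hd i) i
  · apply fill_of_FN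
    exact hf

end Pool.Agent.H95.GF
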