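import Pool.Agent.H95.GA.Dual

/-!
Duality for symmetric tensors in terms of arrays.
-/

namespace Pool.Agent.H95.GF

open MvPolynomial Pool.Agent.H42.GR Pool.Agent.H95.GA

variable {m : ℕ}

theorem exists_word (n : ℕ) : ∀ μ : Fin m →₀ ℕ, μ.degree = n →
    ∃ x : Fin n → Fin m, (monomial μ (1 : ℂ)) = ∏ i, X (x i) := by
  classical
  induction n with
  | zero =>
    intro μ hμ
    have h0 : μ = 0 := by rwa [Finsupp.degree_eq_zero_iff] at hμ
    refine ⟨fun i => i.elim0, ?_⟩
    rw [h0, Finset.univ_eq_empty, Finset.prod_empty]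
    rfl
  | succ n ih =>
    intro μ hμ
    have hne : ∃ l, μ l ≠ 0 := by
      by_contra hcon
      push Not at hcon
      have h0 : μ = 0 := Finsupp.ext hcon
      rw [h0] at hμ
      simp at hμ
    obtain ⟨l, hl⟩ := hne
    have hsplit : μ = Finsupp.single l 1 + (μ - Finsupp.single l 1) := by
      rw [add_comm, tsub_add_cancel_of_le]
      rw [Finsupp.single_le_iff]
      omega
    have hdeg : (μ - Finsupp.single l 1).degree = n := by
      have h1 : μ.degree = (Finsupp.single l 1).degree + (μ - Finsupp.single l 1).degree := by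
        conv_lhs => rw [hsplit]
        rw [map_add]
      rw [Finsupp.degree_single] at h1
      omega
    obtain ⟨x, hx⟩ := ih _ hdeg
    refine ⟨Fin.cons l x, ?_⟩
    rw [Fin.prod_univ_succ]
    simp only [Fin.cons_zero, Fin.cons_succ]
    rw [← hx, X, monomial_mul, ← hsplit, one_mul]

/-- Duality: if the `n`-fold products of `s` subspaces of dimension at most `r` span, every form
of degree `n` has rank at most `s`. -/
theorem rankLE_of_multi {n r s : ℕ} (hr : r ≤ m) (W : Fin s → Submodule ℂ (Fin m → ℂ))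
    (hW : ∀ t, Module.finrank ℂ (W t) ≤ r)
    (h : ∀ f : (Fin n → Fin m) → ℂ, (∀ t, ∀ w : Fin n → (Fin m → ℂ), (∀ i, w i ∈ W t) →
      ∑ x, f x * ∏ i, w i (x i) = 0) → f = 0)
    (T : MvPolynomial (Fin m) ℂ) (hT : T.IsHomogeneous n) : RankLE (Fin m) n r s T := by
  classical
  have hW1 : ∀ t, (W t).map (lf m) ≤ homogeneousSubmodule (Fin m) ℂ 1 := by
    rintro t _ ⟨a, _, rfl⟩
    exact lf_mem a
  have hext : ∀ t, ∃ V' : Submodule ℂ (MvPolynomial (Fin m) ℂ), (W t).map (lf m) ≤ V' ∧
      V' ≤ homogeneousSubmodule (Fin m) ℂ 1 ∧ Module.finrank ℂ V' = r := by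
    intro t
    refine exists_between _ (homogeneousSubmodule (Fin m) ℂ 1) (hW1 t) r ?_
      (by rw [finrank_linear, Fintype.card_fin]; exact hr)
    exact (Submodule.finrank_map_le (lf m) (W t)).trans (hW t)
  choose V' hV1 hV2 hV3 using hext
  by_cases hmem : T ∈ ⨆ t, (V' t) ^ n
  · rw [Submodule.mem_iSup_iff_exists_finsupp] at hmem
    obtain ⟨t, ht, hsum⟩ := hmem
    refine ⟨fun j => t j, fun j => ⟨V' j, hV2 j, hV3 j, ht j⟩, ?_⟩
    rw [← hsum, Finsupp.sum_fintype _ _ (fun _ => rfl)]
  · exfalso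
    obtain ⟨φ, hφT, hφ⟩ := Submodule.exists_le_ker_of_notMem hmem
    apply hφT
    have h0 : (fun x : Fin n → Fin m => φ (∏ i, X (x i))) = 0 := by
      apply h
      intro t w hw
      have h1 : (∏ i, lf m (w i)) ∈ (V' t) ^ n := by
        have h2 : ∀ k : ℕ, ∀ w : Fin k → (Fin m → ℂ), (∀ i, w i ∈ W t) →
            (∏ i, lf m (w i)) ∈ (V' t) ^ k := by
          intro k
          induction k with
          | zero =>
            intro w _
            rw [Finset.univ_eq_empty, Finset.prod_empty, pow_zero]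
            exact Submodule.one_le.mp le_rfl
          | succ k ih =>
            intro w hw
            rw [Fin.prod_univ_succ, pow_succ']
            exact Submodule.mul_mem_mul (hV1 t ⟨w 0, hw 0, rfl⟩) (ih _ fun i => hw i.succ)
        exact h2 n w hw
      have h3 : φ (∏ i, lf m (w i)) = 0 := hφ (Submodule.mem_iSup_of_mem t h1)
      rw [← h3]
      have h4 : (∏ i, lf m (w i)) = ∑ x : Fin n → Fin m, (∏ i, w i (x i)) •
          ∏ i, (X (x i) : MvPolynomial (Fin m) ℂ) := by
        simp only [lf_apply]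
        rw [Finset.prod_univ_sum, Fintype.piFinset_univ]
        refine Finset.sum_congr rfl fun x _ => ?_
        simp only [smul_eq_C_mul]
        rw [Finset.prod_mul_distrib, map_prod]
      rw [h4, map_sum]
      refine Finset.sum_congr rfl fun x _ => ?_
      rw [map_smul, smul_eq_mul, mul_comm]
    rw [← formOf_coeff hT]
    unfold formOf
    rw [map_sum]
    refine Finset.sum_eq_zero fun μ _ => ?_
    obtain ⟨x, hx⟩ := exists_word n μ.1 (mem_mons.mp μ.2)
    have h1 : monomial μ.1 (coeff μ.1 T) = coeff μ.1 T • monomial μ.1 (1 : ℂ) := by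
      rw [smul_monomial, smul_eq_mul, mul_one]
    rw [h1, map_smul, hx]
    have h2 := congrFun h0 x
    simp only [Pi.zero_apply] at h2
    rw [h2, smul_zero]

end Pool.Agent.H95.GF
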