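import Pool.Agent.H95.GF.Tens
import Pool.Agent.H95.GA.Asym

/-!
The generic and the maximal rank of tensors with respect to `Sub_r`, for large `r` and ratios
`m i / r i ≥ 3 * 6 ^ N`.
-/

namespace Pool.Agent.H95.GF

open Pool.Agent.H42.TR

/-- From spanning products in small spaces to spanning products in large spaces. -/
theorem exists_threshold {n s : ℕ} {ρ : Fin n → ℝ} {d e : Fin n → ℕ} (he : ∀ i, 0 < e i)
    (hρ : ∀ i, 0 < ρ i) (hd : ∀ i, ρ i * e i ≤ d i) (hf : Fill n s d e) {δ : ℝ} (hδ : 0 < δ) :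
    ∃ R : ℕ, ∀ m r : Fin n → ℕ, (∀ i, R ≤ r i) → (∀ i, (m i : ℝ) ≤ (ρ i - δ) * r i) →
      ∃ e' : Fin n → ℕ, (∀ i, e' i ≤ r i) ∧ Fill n s m e' := by
  classical
  refine ⟨Finset.univ.sup fun i => ⌈ρ i * e i / δ⌉₊, fun m r hR hm => ?_⟩
  have hd0 : ∀ i, 0 < d i := fun i => by
    have h1 : (0 : ℝ) < e i := by exact_mod_cast he i
    have h2 : (0 : ℝ) < d i := lt_of_lt_of_le (mul_pos (hρ i) h1) (hd i)
    exact_mod_cast h2
  refine ⟨fun i => e i * (m i / d i + 1), fun i => ?_, ?_⟩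
  · have h1 : ⌈ρ i * e i / δ⌉₊ ≤ r i :=
      le_trans (Finset.le_sup (f := fun i => ⌈ρ i * e i / δ⌉₊) (Finset.mem_univ i)) (hR i)
    have h2 : ρ i * e i / δ ≤ r i := (Nat.le_ceil _).trans (by exact_mod_cast h1)
    have h3 : ρ i * e i ≤ δ * r i := by
      rw [div_le_iff₀ hδ] at h2
      linarith
    have hdi : (0 : ℝ) < d i := by exact_mod_cast hd0 i
    have h4 : ((m i / d i : ℕ) : ℝ) ≤ (m i : ℝ) / d i := Nat.cast_div_le
    have h5 : (d i : ℝ) * ((m i / d i : ℕ) : ℝ) ≤ m i := by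
      rw [le_div_iff₀ hdi] at h4
      linarith
    have h6 : (0 : ℝ) ≤ ((m i / d i : ℕ) : ℝ) := Nat.cast_nonneg _
    have h7 : ρ i * (e i * (((m i / d i : ℕ) : ℝ) + 1)) ≤ ρ i * r i := by
      have h8 : ρ i * e i * ((m i / d i : ℕ) : ℝ) ≤ d i * ((m i / d i : ℕ) : ℝ) :=
        mul_le_mul_of_nonneg_right (hd i) h6
      have h9 := hm i
      calc ρ i * (e i * (((m i / d i : ℕ) : ℝ) + 1))
          = ρ i * e i * ((m i / d i : ℕ) : ℝ) + ρ i * e i := by ring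
        _ ≤ (ρ i - δ) * r i + δ * r i := by linarith
        _ = ρ i * r i := by ring
    have h10 : (e i : ℝ) * (((m i / d i : ℕ) : ℝ) + 1) ≤ r i := le_of_mul_le_mul_left h7 (hρ i)
    exact_mod_cast h10
  · have h1 := hf.repl fun i => m i / d i + 1
    refine h1.restrict fun i => ?_
    have := Nat.lt_mul_div_succ (m i) (hd0 i)
    exact this.le

/-- The finite set of ratios that has to be considered. -/
theorem exists_grid {n s : ℕ} {ρ₀ ε : ℝ} (hρ₀ : 1 ≤ ρ₀) (hε : 0 < ε)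
    (P : (Fin n → ℕ) → (Fin n → ℕ) → Prop)
    (H : ∀ (ρ : Fin n → ℝ) (δ : ℝ), 0 < δ → (∀ i, ρ₀ ≤ ρ i) → ∏ i, ρ i < s →
      ∃ R : ℕ, ∀ m r : Fin n → ℕ, (∀ i, R ≤ r i) → (∀ i, r i ≤ m i) →
        (∀ i, (m i : ℝ) ≤ (ρ i - δ) * r i) → P m r) :
    ∃ R : ℕ, 1 ≤ R ∧ ∀ m r : Fin n → ℕ, (∀ i, R ≤ r i) → (∀ i, ρ₀ * r i ≤ m i) →
      (∏ i, (m i : ℝ)) ≤ (s - ε) * ∏ i, (r i : ℝ) → P m r := by
  classical
  obtain ⟨K, hK⟩ := exists_nat_gt (2 ^ (n + 1) * (s + 1) / ε + 2)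
  have hK2 : (2 : ℝ) < K := lt_of_le_of_lt (by
    have : 0 ≤ (2 : ℝ) ^ (n + 1) * (s + 1) / ε := by positivity
    linarith) hK
  have hK0 : (0 : ℝ) < K := by linarith
  have hKε : (2 : ℝ) ^ (n + 1) * (s + 1) < K * ε := by
    have h1 : (2 : ℝ) ^ (n + 1) * (s + 1) / ε < K := by linarith
    rwa [div_lt_iff₀ hε] at h1
  have hg : ∀ g : Fin n → Fin (K * s + 3), ∃ R : ℕ,
      ((∀ i, ρ₀ ≤ ((g i : ℕ) : ℝ) / K) ∧ ∏ i, ((g i : ℕ) : ℝ) / K < s) →
      ∀ m r : Fin n → ℕ, (∀ i, R ≤ r i) → (∀ i, r i ≤ m i) →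
        (∀ i, (m i : ℝ) ≤ (((g i : ℕ) : ℝ) / K - 1 / K) * r i) → P m r := by
    intro g
    by_cases h : (∀ i, ρ₀ ≤ ((g i : ℕ) : ℝ) / K) ∧ ∏ i, ((g i : ℕ) : ℝ) / K < s
    · obtain ⟨R, hR⟩ := H (fun i => ((g i : ℕ) : ℝ) / K) (1 / K) (by positivity) h.1 h.2
      exact ⟨R, fun _ => hR⟩
    · exact ⟨0, fun h' => absurd h' h⟩
  choose R hR using hg
  refine ⟨Finset.univ.sup R + 1, by omega, fun m r hr hm hprod => ?_⟩
  have hr0 : ∀ i, (0 : ℝ) < r i := fun i => by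
    have : 0 < r i := by have := hr i; omega
    exact_mod_cast this
  have hrm : ∀ i, (r i : ℝ) ≤ m i := fun i => by
    have h1 := hm i
    have h2 : 1 * (r i : ℝ) ≤ ρ₀ * r i := mul_le_mul_of_nonneg_right hρ₀ (hr0 i).le
    linarith
  have hrm' : ∀ i, r i ≤ m i := fun i => by exact_mod_cast hrm i
  have hPr : 0 < ∏ i, (r i : ℝ) := Finset.prod_pos fun i _ => hr0 i
  -- every ratio is at most `s`
  have hms : ∀ i, (m i : ℝ) ≤ s * r i := by
    intro i
    have h1 : (m i : ℝ) * ∏ j ∈ Finset.univ.erase i, (r j : ℝ) ≤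
        (s * r i) * ∏ j ∈ Finset.univ.erase i, (r j : ℝ) := by
      calc (m i : ℝ) * ∏ j ∈ Finset.univ.erase i, (r j : ℝ)
          ≤ m i * ∏ j ∈ Finset.univ.erase i, (m j : ℝ) :=
            mul_le_mul_of_nonneg_left (Finset.prod_le_prod (fun j _ => (hr0 j).le)
              fun j _ => hrm j) (Nat.cast_nonneg _)
        _ = ∏ j, (m j : ℝ) := Finset.mul_prod_erase _ (fun j => (m j : ℝ)) (Finset.mem_univ i)
        _ ≤ (s - ε) * ∏ j, (r j : ℝ) := hprod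
        _ ≤ s * ∏ j, (r j : ℝ) := mul_le_mul_of_nonneg_right (by linarith) hPr.le
        _ = (s * r i) * ∏ j ∈ Finset.univ.erase i, (r j : ℝ) := by
            rw [← Finset.mul_prod_erase Finset.univ (fun j => (r j : ℝ)) (Finset.mem_univ i)]
            ring
    exact le_of_mul_le_mul_right h1 (Finset.prod_pos fun j _ => hr0 j)
  set x : Fin n → ℝ := fun i => (m i : ℝ) / r i with hx
  have hx1 : ∀ i, ρ₀ ≤ x i := fun i => by
    rw [hx, le_div_iff₀ (hr0 i)]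
    exact hm i
  have hxs : ∀ i, x i ≤ s := fun i => by
    rw [hx, div_le_iff₀ (hr0 i)]
    exact hms i
  have hxr : ∀ i, x i * r i = m i := fun i => by
    rw [hx]
    exact div_mul_cancel₀ _ (hr0 i).ne'
  have hx0 : ∀ i, 0 ≤ x i := fun i => le_trans (by linarith) (hx1 i)
  have hfl : ∀ i, ⌊K * x i⌋₊ + 2 < K * s + 3 := by
    intro i
    have h1 : ⌊K * x i⌋₊ ≤ K * s := by
      have h2 : (K : ℝ) * x i ≤ ((K * s : ℕ) : ℝ) := by
        push_cast
        exact mul_le_mul_of_nonneg_left (hxs i) hK0.le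
      calc ⌊K * x i⌋₊ ≤ ⌊((K * s : ℕ) : ℝ)⌋₊ := Nat.floor_le_floor h2
        _ = K * s := Nat.floor_natCast _
    omega
  have hgr1 : ∀ i, K * x i + 1 ≤ ((⌊K * x i⌋₊ + 2 : ℕ) : ℝ) := by
    intro i
    have := Nat.lt_floor_add_one (K * x i)
    push_cast
    linarith
  have hgr2 : ∀ i, ((⌊K * x i⌋₊ + 2 : ℕ) : ℝ) ≤ K * x i + 2 := by
    intro i
    have := Nat.floor_le (show 0 ≤ K * x i by have := hx0 i; positivity)
    push_cast
    linarith
  refine hR (fun i => ⟨⌊K * x i⌋₊ + 2, hfl i⟩) ⟨fun i => ?_, ?_⟩ m r (fun i => ?_) hrm'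
    (fun i => ?_)
  · simp only
    rw [le_div_iff₀ hK0]
    have h1 := hgr1 i
    have h2 : K * ρ₀ ≤ K * x i := mul_le_mul_of_nonneg_left (hx1 i) hK0.le
    linarith
  · simp only
    have h1 : ∏ i, ((⌊K * x i⌋₊ + 2 : ℕ) : ℝ) / K ≤ ∏ i, (x i * (1 + 2 / K)) := by
      apply Finset.prod_le_prod
      · intro i _
        positivity
      · intro i _
        rw [div_le_iff₀ hK0]
        have h2 : x i * (1 + 2 / K) * K = K * x i + 2 * x i := by
          field_simp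
        rw [h2]
        have h3 := hgr2 i
        have h4 : 1 ≤ x i := hρ₀.trans (hx1 i)
        linarith
    refine lt_of_le_of_lt h1 ?_
    rw [Finset.prod_mul_distrib, Finset.prod_const, Finset.card_univ, Fintype.card_fin]
    have h5 : ∏ i, x i ≤ s - ε := by
      have h6 : (∏ i, x i) * ∏ i, (r i : ℝ) = ∏ i, (m i : ℝ) := by
        rw [← Finset.prod_mul_distrib]
        exact Finset.prod_congr rfl fun i _ => hxr i
      rw [← h6] at hprod
      exact le_of_mul_le_mul_right hprod hPr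
    have h7 := Pool.Agent.H95.GA.one_add_pow_le ((2 : ℝ) / K) (by positivity)
      (by rw [div_le_one hK0]; exact hK2.le) n
    have h8 : (0 : ℝ) ≤ ∏ i, x i := Finset.prod_nonneg fun i _ => hx0 i
    have h9 : (0 : ℝ) ≤ s - ε := h8.trans h5
    calc (∏ i, x i) * (1 + 2 / K) ^ n ≤ (s - ε) * (1 + (2 ^ n - 1) * (2 / K)) :=
          mul_le_mul h5 h7 (by positivity) h9
      _ ≤ (s - ε) * (1 + 2 ^ n * (2 / K)) := by
          apply mul_le_mul_of_nonneg_left _ h9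
          have : (0 : ℝ) ≤ 2 / K := by positivity
          linarith
      _ = (s - ε) + (s - ε) * (2 ^ (n + 1) / K) := by
          rw [pow_succ]
          ring
      _ ≤ (s - ε) + (s + 1) * (2 ^ (n + 1) / K) := by
          have : (0 : ℝ) ≤ 2 ^ (n + 1) / K := by positivity
          have h10 : (s : ℝ) - ε ≤ s + 1 := by linarith
          linarith [mul_le_mul_of_nonneg_right h10 this]
      _ < (s - ε) + ε := by
          have h11 : (s + 1) * ((2 : ℝ) ^ (n + 1) / K) < ε := by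
            rw [mul_div_assoc', div_lt_iff₀ hK0]
            linarith
          linarith
      _ = s := by ring
  · have h1 : R (fun i => ⟨⌊K * x i⌋₊ + 2, hfl i⟩) ≤ Finset.univ.sup R :=
      Finset.le_sup (f := R) (Finset.mem_univ _)
    have h2 := hr i
    omega
  · simp only
    rw [← sub_div, div_mul_eq_mul_div, le_div_iff₀ hK0]
    have h1 := hgr1 i
    have h2 : K * (m i : ℝ) = (K * x i) * r i := by
      rw [← hxr i]
      ring
    have h3 : (K * x i) * r i ≤ (((⌊K * x i⌋₊ + 2 : ℕ) : ℝ) - 1) * r i :=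
      mul_le_mul_of_nonneg_right (by linarith) (hr0 i).le
    linarith

/-- The maximal rank. -/
theorem tensor_upper (N s : ℕ) {ε : ℝ} (hε : 0 < ε) :
    ∃ R : ℕ, 1 ≤ R ∧ ∀ m r : Fin (N + 2) → ℕ, (∀ i, R ≤ r i) →
      (∀ i, (3 * 6 ^ N : ℝ) * r i ≤ m i) →
      (∏ i, (m i : ℝ)) ≤ (s - ε) * ∏ i, (r i : ℝ) →
      ∀ T : Tens (fun i => Fin (m i)), RankLE (fun i => Fin (m i)) r s T := by
  have h6 : (1 : ℝ) ≤ 6 ^ N := one_le_pow₀ (by norm_num)
  refine exists_grid (ρ₀ := 3 * 6 ^ N) (by linarith) hε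
    (fun m r => ∀ T : Tens (fun i => Fin (m i)), RankLE (fun i => Fin (m i)) r s T) ?_
  intro ρ δ hδ hρ hs
  obtain ⟨d, e, he, hd, hf⟩ := fill_main hρ hs
  obtain ⟨R, hR⟩ := exists_threshold he (fun i => by linarith [hρ i]) hd hf hδ
  refine ⟨R, fun m r hr hrm hm T => ?_⟩
  obtain ⟨e', he', hf'⟩ := hR m r hr hm
  exact rankLE_of_fill hf' he' hrm T

end Pool.Agent.H95.GF
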