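import Pool.Agent.H95.GF.Gen
import Pool.Agent.H95.GF.Multi
import Pool.Agent.H95.GF.TensEps

/-!
Symmetric tensors: from spanning products of different subspaces to spanning `n`-fold products of
the same subspaces.
-/

namespace Pool.Agent.H95.GF

open Pool.Agent.H42.GR Pool.Agent.H95.GA

/-- Interpolation coefficients. -/
theorem exists_lagrange {n M : ℕ} {θ : Fin M → ℂ} (hθ : Function.Injective θ)
    (Im : Finset (Fin M)) (hIm : Im.card ≤ n) (a₀ : Fin M) (ha₀ : a₀ ∈ Im) :
    ∃ c : Fin n → ℂ, ∀ a ∈ Im, ∑ j, c j * θ a ^ (j : ℕ) = if a = a₀ then 1 else 0 := by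
  classical
  set L := Lagrange.basis Im θ a₀ with hL
  have hinj : Set.InjOn θ Im := fun x _ y _ h => hθ h
  have hdeg : L.natDegree < n := by
    have h1 : L.degree = ((Im.card - 1 : ℕ) : WithBot ℕ) := Lagrange.degree_basis hinj ha₀
    have h2 := Polynomial.natDegree_eq_of_degree_eq_some h1
    have h3 : 0 < Im.card := Finset.card_pos.mpr ⟨a₀, ha₀⟩
    omega
  refine ⟨fun j => L.coeff j, fun a ha => ?_⟩
  have h1 := Polynomial.eval_eq_sum_range' hdeg (θ a)
  rw [Finset.sum_range] at h1
  rw [← h1]
  split_ifs with h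
  · rw [h, hL, Lagrange.eval_basis_self hinj ha₀]
  · rw [hL, Lagrange.eval_basis_of_ne (Ne.symm h) ha]

/-- The vectors of the subspaces. -/
def Lam {M e d n s : ℕ} (U : Fin M → Fin s → Fin e → Fin d → ℂ) (θ : Fin M → ℂ) (t : Fin s)
    (p : (Fin M × Fin e → ℂ) × (Fin n × Fin d → ℂ)) (v : Fin M × Fin d) : ℂ :=
  ∑ k, p.1 (v.1, k) * U v.1 t k v.2 + ∑ j : Fin n, p.2 (j, v.2) * θ v.1 ^ (j : ℕ)

/-- Extension of an injective partial map. -/
theorem exists_extension {n M : ℕ} (hnM : n ≤ M) (P : Finset (Fin n)) (a : Fin n → Fin M)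
    (ha : Set.InjOn a P) : ∃ b : Fin n → Fin M, Function.Injective b ∧ ∀ i ∈ P, b i = a i := by
  classical
  have hc : (P.image a).card = P.card := Finset.card_image_of_injOn ha
  have hcard : Fintype.card {i // i ∉ P} ≤ Fintype.card {x // x ∉ P.image a} := by
    rw [Fintype.card_subtype_compl, Fintype.card_subtype_compl]
    simp only [Fintype.card_fin, Fintype.card_coe]
    rw [hc]
    omega
  obtain ⟨g⟩ := Function.Embedding.nonempty_of_card_le hcard
  refine ⟨fun i => if h : i ∈ P then a i else (g ⟨i, h⟩).1, ?_, ?_⟩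
  · intro i i' h
    simp only at h
    split_ifs at h with h1 h2 h2
    · exact ha h1 h2 h
    · exfalso
      apply (g ⟨i', h2⟩).2
      rw [← h]
      exact Finset.mem_image_of_mem a h1
    · exfalso
      apply (g ⟨i, h1⟩).2
      rw [h]
      exact Finset.mem_image_of_mem a h2
    · have h3 := g.injective (Subtype.ext h)
      exact congrArg Subtype.val h3
  · intro i hi
    simp only [dif_pos hi]

/-- Representatives of the values of a map. -/
theorem exists_reps {n M : ℕ} (a : Fin n → Fin M) :
    ∃ P : Finset (Fin n), Set.InjOn a P ∧ P.image a = Finset.univ.image a := by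
  classical
  have h : ∀ x : Fin M, ∃ i : Option (Fin n), x ∈ Finset.univ.image a →
      ∃ j, i = some j ∧ a j = x := by
    intro x
    by_cases hx : x ∈ Finset.univ.image a
    · obtain ⟨j, _, hj⟩ := Finset.mem_image.mp hx
      exact ⟨some j, fun _ => ⟨j, rfl, hj⟩⟩
    · exact ⟨none, fun h => absurd h hx⟩
  choose rep hrep using h
  refine ⟨Finset.univ.filter fun i => rep (a i) = some i, ?_, ?_⟩
  · intro i hi i' hi' h
    rw [Finset.mem_coe, Finset.mem_filter] at hi hi'
    have h1 := hi.2
    rw [h, hi'.2] at h1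
    exact (Option.some.inj h1).symm
  · apply Finset.Subset.antisymm
    · exact Finset.image_subset_image (Finset.subset_univ _)
    · intro x hx
      obtain ⟨j, hj1, hj2⟩ := hrep x hx
      rw [Finset.mem_image]
      refine ⟨j, ?_, hj2⟩
      rw [Finset.mem_filter]
      refine ⟨Finset.mem_univ _, ?_⟩
      rw [hj2]
      exact hj1

/-- The induction step. -/
theorem multi_step {M e d n s : ℕ} (hnM : n ≤ M) {U : Fin M → Fin s → Fin e → Fin d → ℂ}
    (hU : ∀ b : Fin n → Fin M, Function.Injective b →
      Inj (fun (c : Fin s × (Fin n → Fin e)) (z : Fin n → Fin d) =>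
        ∏ i, U (b i) c.1 (c.2 i) (z i)))
    {θ : Fin M → ℂ} (hθ : Function.Injective θ) (f : (Fin n → Fin M × Fin d) → ℂ)
    (hf : ∀ t, ∀ p : Fin n → (Fin M × Fin e → ℂ) × (Fin n × Fin d → ℂ),
      ∑ x, f x * ∏ i, Lam U θ t (p i) (x i) = 0) (x₀ : Fin n → Fin M × Fin d)
    (ih : ∀ x, (Finset.univ.image fun i => (x₀ i).1).card <
      (Finset.univ.image fun i => (x i).1).card → f x = 0) : f x₀ = 0 := by
  classical
  set a : Fin n → Fin M := fun i => (x₀ i).1 with ha
  set ζ : Fin n → Fin d := fun i => (x₀ i).2 with hζ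
  set Im : Finset (Fin M) := Finset.univ.image a with hIm
  obtain ⟨P, hPinj, hPim⟩ := exists_reps a
  obtain ⟨b, hb, hbP⟩ := exists_extension hnM P a hPinj
  have hImcard : Im.card ≤ n := by
    refine Finset.card_image_le.trans ?_
    rw [Finset.card_univ, Fintype.card_fin]
  have hmem : ∀ i, a i ∈ Im := fun i => Finset.mem_image_of_mem a (Finset.mem_univ i)
  choose c hc using fun i => exists_lagrange hθ Im hImcard (a i) (hmem i)
  -- the values on the blocks
  have hzero : (fun z : Fin n → Fin d => if ∀ i, i ∉ P → z i = ζ i then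
      f (fun i => (a i, z i)) else 0) = 0 := by
    apply hU b hb
    rintro ⟨t, k⟩
    simp only
    set p : Fin n → (Fin M × Fin e → ℂ) × (Fin n × Fin d → ℂ) := fun i =>
      if i ∈ P then (fun q => if q = (a i, k i) then 1 else 0, fun _ => 0)
      else (fun _ => 0, fun q => if q.2 = ζ i then c i q.1 else 0) with hp
    have hLP : ∀ i, i ∈ P → ∀ v, Lam U θ t (p i) v = if v.1 = a i then U (a i) t (k i) v.2
        else 0 := by
      intro i hi v
      have h1 : p i = (fun q => if q = (a i, k i) then 1 else 0, fun _ => 0) := by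
        rw [hp]
        exact if_pos hi
      unfold Lam
      rw [h1]
      simp only [zero_mul, Finset.sum_const_zero, add_zero, Prod.mk.injEq]
      split_ifs with h
      · rw [Finset.sum_eq_single (k i)]
        · rw [if_pos ⟨h, rfl⟩, one_mul, h]
        · intro k' _ hk'
          rw [if_neg (fun h2 => hk' h2.2), zero_mul]
        · intro h2
          exact absurd (Finset.mem_univ _) h2
      · refine Finset.sum_eq_zero fun k' _ => ?_
        rw [if_neg (fun h2 => h h2.1), zero_mul]
    have hLQ : ∀ i, i ∉ P → ∀ v, Lam U θ t (p i) v = if v.2 = ζ i then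
        ∑ j, c i j * θ v.1 ^ (j : ℕ) else 0 := by
      intro i hi v
      have h1 : p i = (fun _ => 0, fun q => if q.2 = ζ i then c i q.1 else 0) := by
        rw [hp]
        exact if_neg hi
      unfold Lam
      rw [h1]
      simp only [zero_mul, Finset.sum_const_zero, zero_add]
      split_ifs with h
      · rfl
      · simp
    have h0 := hf t p
    have hinj : Function.Injective (fun (z : Fin n → Fin d) (i : Fin n) => (a i, z i)) := by
      intro z z' h
      funext i
      have := congrFun h i
      simp only [Prod.mk.injEq] at this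
      exact this.2
    have h1 : ∑ z : Fin n → Fin d, f (fun i => (a i, z i)) * ∏ i, Lam U θ t (p i) (a i, z i) =
        ∑ x, f x * ∏ i, Lam U θ t (p i) (x i) := by
      refine Fintype.sum_of_injective _ hinj _ _ ?_ (fun z => rfl)
      intro x hx
      by_cases hPx : ∀ i ∈ P, (x i).1 = a i
      · -- some other position has a different block
        have hex : ∃ i, (x i).1 ≠ a i := by
          by_contra hcon
          push Not at hcon
          apply hx
          refine ⟨fun i => (x i).2, ?_⟩
          funext i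
          exact Prod.ext (hcon i).symm rfl
        obtain ⟨i, hi⟩ := hex
        have hiP : i ∉ P := fun h => hi (hPx i h)
        by_cases hIx : (x i).1 ∈ Im
        · have h2 : Lam U θ t (p i) (x i) = 0 := by
            rw [hLQ i hiP]
            split_ifs with h3
            · rw [hc i _ hIx, if_neg hi]
            · rfl
          rw [Finset.prod_eq_zero (Finset.mem_univ i) h2, mul_zero]
        · rw [ih x, zero_mul]
          have h3 : insert (x i).1 Im ⊆ Finset.univ.image fun i => (x i).1 := by
            intro y hy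
            rw [Finset.mem_insert] at hy
            rcases hy with rfl | hy
            · exact Finset.mem_image_of_mem (fun i => (x i).1) (Finset.mem_univ i)
            · rw [hIm, ← hPim] at hy
              obtain ⟨l, hl, rfl⟩ := Finset.mem_image.mp hy
              rw [← hPx l hl]
              exact Finset.mem_image_of_mem (fun i => (x i).1) (Finset.mem_univ l)
          have h4 := Finset.card_le_card h3
          rw [Finset.card_insert_of_notMem hIx] at h4
          exact h4
      · push Not at hPx
        obtain ⟨i, hi, hne⟩ := hPx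
        have h2 : Lam U θ t (p i) (x i) = 0 := by
          rw [hLP i hi, if_neg hne]
        rw [Finset.prod_eq_zero (Finset.mem_univ i) h2, mul_zero]
    rw [h0] at h1
    have h2 : ∀ z : Fin n → Fin d, (if ∀ i, i ∉ P → z i = ζ i then f (fun i => (a i, z i)) else 0) *
        ∏ i, U (b i) t (k i) (z i) = (∏ i ∈ Finset.univ.filter fun i => i ∉ P,
          U (b i) t (k i) (ζ i)) * (f (fun i => (a i, z i)) * ∏ i, Lam U θ t (p i) (a i, z i)) := by
      intro z
      split_ifs with h
      · have h3 : ∏ i, U (b i) t (k i) (z i) = (∏ i ∈ Finset.univ.filter fun i => i ∉ P,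
            U (b i) t (k i) (ζ i)) * ∏ i ∈ P, U (b i) t (k i) (z i) := by
          rw [← Finset.prod_filter_mul_prod_filter_not Finset.univ (fun i => i ∉ P)]
          congr 1
          · refine Finset.prod_congr rfl fun i hi => ?_
            rw [h i (Finset.mem_filter.mp hi).2]
          · apply Finset.prod_congr
            · ext i
              simp
            · intro i _
              rfl
        have h4 : ∏ i, Lam U θ t (p i) (a i, z i) = ∏ i ∈ P, U (b i) t (k i) (z i) := by
          rw [← Finset.prod_filter_mul_prod_filter_not Finset.univ (fun i => i ∉ P)]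
          have h5 : ∏ i ∈ Finset.univ.filter (fun i => i ∉ P), Lam U θ t (p i) (a i, z i) = 1 := by
            apply Finset.prod_eq_one
            intro i hi
            have hi' := (Finset.mem_filter.mp hi).2
            rw [hLQ i hi', if_pos (h i hi')]
            simp only
            rw [hc i _ (hmem i), if_pos rfl]
          rw [h5, one_mul]
          apply Finset.prod_congr
          · ext i
            simp
          · intro i hi
            have hi' : i ∈ P := by simpa using hi
            rw [hLP i hi', if_pos rfl, hbP i hi']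
        rw [h3, h4]
        ring
      · push Not at h
        obtain ⟨i, hi, hne⟩ := h
        have h3 : Lam U θ t (p i) (a i, z i) = 0 := by
          rw [hLQ i hi, if_neg hne]
        have h4 : ∏ i, Lam U θ t (p i) (a i, z i) = 0 :=
          Finset.prod_eq_zero (Finset.mem_univ i) h3
        rw [h4, mul_zero, mul_zero, zero_mul]
    rw [Finset.sum_congr rfl fun z _ => h2 z, ← Finset.mul_sum, h1, mul_zero]
  have h1 := congrFun hzero ζ
  simp only [Pi.zero_apply, implies_true, if_true] at h1
  exact h1

/-- The `n`-fold products of the subspaces span. -/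
theorem multi_span {M e d n s : ℕ} (hnM : n ≤ M) {U : Fin M → Fin s → Fin e → Fin d → ℂ}
    (hU : ∀ b : Fin n → Fin M, Function.Injective b →
      Inj (fun (c : Fin s × (Fin n → Fin e)) (z : Fin n → Fin d) =>
        ∏ i, U (b i) c.1 (c.2 i) (z i)))
    {θ : Fin M → ℂ} (hθ : Function.Injective θ) (f : (Fin n → Fin M × Fin d) → ℂ)
    (hf : ∀ t, ∀ p : Fin n → (Fin M × Fin e → ℂ) × (Fin n × Fin d → ℂ),
      ∑ x, f x * ∏ i, Lam U θ t (p i) (x i) = 0) : f = 0 := by
  classical
  -- descending induction on the number of different blocks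
  have key : ∀ N : ℕ, ∀ x : Fin n → Fin M × Fin d,
      n ≤ (Finset.univ.image fun i => (x i).1).card + N → f x = 0 := by
    intro N
    induction N with
    | zero =>
      intro x hx
      refine multi_step hnM hU hθ f hf x fun x' h => ?_
      exfalso
      have h1 : (Finset.univ.image fun i => (x' i).1).card ≤ n := by
        refine Finset.card_image_le.trans ?_
        rw [Finset.card_univ, Fintype.card_fin]
      omega
    | succ N ih =>
      intro x hx
      refine multi_step hnM hU hθ f hf x fun x' h => ih x' (by omega)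
  funext x
  exact key n x (Nat.le_add_left _ _)

/-- The subspaces as linear maps into the coordinate space of dimension `m`. -/
noncomputable def LamL {M e d n s m : ℕ} (U : Fin M → Fin s → Fin e → Fin d → ℂ) (θ : Fin M → ℂ)
    (pos : Fin m → Fin M × Fin d) (t : Fin s) :
    ((Fin M × Fin e → ℂ) × (Fin n × Fin d → ℂ)) →ₗ[ℂ] (Fin m → ℂ) where
  toFun p v := Lam U θ t p (pos v)
  map_add' p p' := by
    funext v
    simp only [Lam, Prod.fst_add, Prod.snd_add, Pi.add_apply, add_mul, Finset.sum_add_distrib]
    ring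
  map_smul' c p := by
    funext v
    simp only [Lam, Prod.smul_fst, Prod.smul_snd, Pi.smul_apply, smul_eq_mul, RingHom.id_apply,
      mul_assoc, ← Finset.mul_sum, mul_add]

/-- The rank of every form, from one spanning configuration. -/
theorem rankLE_sym {n s d e M m r : ℕ} (hf : Fill n s (fun _ => d) (fun _ => e)) (hnM : n ≤ M)
    (hm : m ≤ M * d) (hr : r ≤ m) (hre : M * e + n * d ≤ r) (T : MvPolynomial (Fin m) ℂ)
    (hT : T.IsHomogeneous n) : RankLE (Fin m) n r s T := by
  classical
  obtain ⟨U, hU⟩ := exists_generic_family hf M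
  have hθ : Function.Injective (fun a : Fin M => ((a : ℕ) : ℂ)) := by
    intro a a' h
    simp only [Nat.cast_inj] at h
    exact Fin.ext h
  set pos : Fin m → Fin M × Fin d := fun v => finProdFinEquiv.symm (Fin.castLE hm v) with hpos
  have hposinj : Function.Injective pos :=
    finProdFinEquiv.symm.injective.comp (Fin.castLE_injective hm)
  refine rankLE_of_multi hr (fun t => LinearMap.range
    (LamL (n := n) U (fun a : Fin M => ((a : ℕ) : ℂ)) pos t)) (fun t => ?_) ?_ T hT
  · refine (LinearMap.finrank_range_le _).trans (le_trans (le_of_eq ?_) hre)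
    rw [Module.finrank_prod, Module.finrank_fintype_fun_eq_card,
      Module.finrank_fintype_fun_eq_card]
    simp only [Fintype.card_prod, Fintype.card_fin]
  · intro f hf0
    have hposn : Function.Injective (fun (x : Fin n → Fin m) (i : Fin n) => pos (x i)) := by
      intro x x' h
      funext i
      exact hposinj (congrFun h i)
    have h1 : (fun x' : Fin n → Fin M × Fin d => ∑ x : Fin n → Fin m,
        if (fun i => pos (x i)) = x' then f x else 0) = 0 := by
      refine multi_span hnM hU hθ _ ?_
      intro t p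
      have h2 := hf0 t (fun i => LamL (n := n) U (fun a : Fin M => ((a : ℕ) : ℂ)) pos t (p i))
        (fun i => ⟨p i, rfl⟩)
      refine Eq.trans ?_ h2
      calc ∑ x' : Fin n → Fin M × Fin d, (∑ x : Fin n → Fin m,
            if (fun i => pos (x i)) = x' then f x else 0) *
            ∏ i, Lam U (fun a : Fin M => ((a : ℕ) : ℂ)) t (p i) (x' i)
          = ∑ x' : Fin n → Fin M × Fin d, ∑ x : Fin n → Fin m,
            (if (fun i => pos (x i)) = x' then f x *
              ∏ i, Lam U (fun a : Fin M => ((a : ℕ) : ℂ)) t (p i) (x' i) else 0) := by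
            refine Finset.sum_congr rfl fun x' _ => ?_
            rw [Finset.sum_mul]
            refine Finset.sum_congr rfl fun x _ => ?_
            rw [ite_mul, zero_mul]
        _ = ∑ x : Fin n → Fin m, ∑ x' : Fin n → Fin M × Fin d,
            (if (fun i => pos (x i)) = x' then f x *
              ∏ i, Lam U (fun a : Fin M => ((a : ℕ) : ℂ)) t (p i) (x' i) else 0) :=
            Finset.sum_comm
        _ = _ := by
            refine Finset.sum_congr rfl fun x _ => ?_
            rw [Finset.sum_ite_eq, if_pos (Finset.mem_univ _)]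
            rfl
    funext x
    have h2 := congrFun h1 fun i => pos (x i)
    simp only [Pi.zero_apply] at h2
    rw [Finset.sum_eq_single x] at h2
    · rwa [if_pos rfl] at h2
    · intro y _ hy
      rw [if_neg (fun h3 => hy (hposn h3))]
    · intro h3
      exact absurd (Finset.mem_univ _) h3

/-- Equalising the dimensions. -/
theorem fill_equal {n s : ℕ} {ρ : ℝ} (hρ : 0 < ρ) {d e : Fin n → ℕ} (he : ∀ i, 0 < e i)
    (hd : ∀ i, ρ * e i ≤ d i) (hf : Fill n s d e) :
    ∃ d' e' : ℕ, 0 < e' ∧ ρ * e' ≤ d' ∧ Fill n s (fun _ => d') (fun _ => e') := by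
  classical
  have h1 := hf.repl fun i => ∏ j ∈ Finset.univ.erase i, e j
  have h2 : (fun i => e i * ∏ j ∈ Finset.univ.erase i, e j) = fun _ => ∏ j, e j := by
    funext i
    exact Finset.mul_prod_erase Finset.univ e (Finset.mem_univ i)
  rw [h2] at h1
  refine ⟨⌈ρ * ((∏ j, e j : ℕ) : ℝ)⌉₊, ∏ j, e j, Finset.prod_pos fun j _ => he j,
    Nat.le_ceil _, h1.restrict fun i => ?_⟩
  rw [Nat.ceil_le]
  have h3 := congrFun h2 i
  rw [← h3]
  push_cast
  have h4 : (0 : ℝ) ≤ ∏ j ∈ Finset.univ.erase i, (e j : ℝ) := by positivity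
  have h5 := mul_le_mul_of_nonneg_right (hd i) h4
  linarith

/-- The maximal rank of symmetric tensors. -/
theorem sym_upper (N s : ℕ) {ε : ℝ} (hε : 0 < ε) :
    ∃ R : ℕ, 1 ≤ R ∧ ∀ m r : ℕ, R ≤ r → (3 * 6 ^ N : ℝ) * r ≤ m →
      (m : ℝ) ^ (N + 2) ≤ (s - ε) * (r : ℝ) ^ (N + 2) →
      ∀ T : MvPolynomial (Fin m) ℂ, T.IsHomogeneous (N + 2) → RankLE (Fin m) (N + 2) r s T := by
  have h6 : (1 : ℝ) ≤ 6 ^ N := one_le_pow₀ (by norm_num)
  obtain ⟨R, hR1, hR⟩ := exists_grid (n := N + 2) (s := s) (ρ₀ := 3 * 6 ^ N) (by linarith) hε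
    (fun m r => (∀ i, m i = m 0) → (∀ i, r i = r 0) →
      ∀ T : MvPolynomial (Fin (m 0)) ℂ, T.IsHomogeneous (N + 2) →
        RankLE (Fin (m 0)) (N + 2) (r 0) s T) (by
    intro ρ δ hδ hρ hs
    obtain ⟨i₀, _, hi₀⟩ := Finset.exists_min_image Finset.univ ρ
      (Finset.univ_nonempty (α := Fin (N + 2)))
    have hρ0 : ∀ i, 0 < ρ i := fun i => by linarith [hρ i]
    have hs' : ∏ _i : Fin (N + 2), ρ i₀ < s := by
      refine lt_of_le_of_lt ?_ hs
      exact Finset.prod_le_prod (fun i _ => (hρ0 i₀).le) fun i _ => hi₀ i (Finset.mem_univ i)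
    obtain ⟨d₁, e₁, he₁, hd₁, hf₁⟩ := fill_main (ρ := fun _ => ρ i₀) (fun _ => hρ i₀) hs'
    obtain ⟨d, e, he, hd, hf⟩ := fill_equal (hρ0 i₀) he₁ hd₁ hf₁
    have hd0 : 0 < d := by
      have h1 : (0 : ℝ) < e := by exact_mod_cast he
      have h2 : (0 : ℝ) < d := lt_of_lt_of_le (mul_pos (hρ0 i₀) h1) hd
      exact_mod_cast h2
    refine ⟨⌈ρ i₀ * (((N + 3) * e + (N + 2) * d : ℕ) : ℝ) / δ⌉₊, fun m r hr hrm hm hm0 hr0 => ?_⟩
    intro T hT
    have hr' := hr i₀
    have hm' := hm i₀
    rw [hr0 i₀] at hr' hm'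
    rw [hm0 i₀] at hm'
    refine rankLE_sym (M := m 0 / d + 1 + (N + 2)) hf (Nat.le_add_left _ _) ?_ ?_ ?_ T hT
    · have h1 := Nat.lt_mul_div_succ (m 0) hd0
      have h2 : d * (m 0 / d + 1) ≤ (m 0 / d + 1 + (N + 2)) * d := by
        rw [mul_comm]
        exact Nat.mul_le_mul_right _ (by omega)
      omega
    · have h1 := hrm 0
      exact h1
    · have h2 : ρ i₀ * (((N + 3) * e + (N + 2) * d : ℕ) : ℝ) / δ ≤ r 0 :=
        (Nat.le_ceil _).trans (by exact_mod_cast hr')
      have h3 : ρ i₀ * (((N + 3) * e + (N + 2) * d : ℕ) : ℝ) ≤ δ * r 0 := by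
        rw [div_le_iff₀ hδ] at h2
        linarith
      have hdr : (0 : ℝ) < d := by exact_mod_cast hd0
      have h4 : ((m 0 / d : ℕ) : ℝ) ≤ (m 0 : ℝ) / d := Nat.cast_div_le
      have h5 : (d : ℝ) * ((m 0 / d : ℕ) : ℝ) ≤ m 0 := by
        rw [le_div_iff₀ hdr] at h4
        linarith
      have h6' : (0 : ℝ) ≤ ((m 0 / d : ℕ) : ℝ) := Nat.cast_nonneg _
      have h7 : ρ i₀ * (((m 0 / d + 1 + (N + 2)) * e + (N + 2) * d : ℕ) : ℝ) ≤ ρ i₀ * r 0 := by
        have h8 : ρ i₀ * e * ((m 0 / d : ℕ) : ℝ) ≤ d * ((m 0 / d : ℕ) : ℝ) :=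
          mul_le_mul_of_nonneg_right hd h6'
        have h9 : (((m 0 / d + 1 + (N + 2)) * e + (N + 2) * d : ℕ) : ℝ) =
            e * ((m 0 / d : ℕ) : ℝ) + (((N + 3) * e + (N + 2) * d : ℕ) : ℝ) := by
          push_cast
          ring
        calc ρ i₀ * (((m 0 / d + 1 + (N + 2)) * e + (N + 2) * d : ℕ) : ℝ)
            = ρ i₀ * e * ((m 0 / d : ℕ) : ℝ) +
              ρ i₀ * (((N + 3) * e + (N + 2) * d : ℕ) : ℝ) := by
              rw [h9]
              ring
          _ ≤ (ρ i₀ - δ) * r 0 + δ * r 0 := by linarith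
          _ = ρ i₀ * r 0 := by ring
      have h10 := le_of_mul_le_mul_left h7 (hρ0 i₀)
      exact_mod_cast h10)
  refine ⟨R, hR1, fun m r hr hm hmr T hT => ?_⟩
  refine hR (fun _ => m) (fun _ => r) (fun _ => hr) (fun _ => hm) ?_ (fun _ => rfl)
    (fun _ => rfl) T hT
  rw [Finset.prod_const, Finset.prod_const, Finset.card_univ, Fintype.card_fin]
  exact hmr

end Pool.Agent.H95.GF
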