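import Pool.Agent.H95.GF.Main
import Pool.Agent.H42.TR.Defs
import Pool.Agent.H42.GR.Blocks
import Pool.Agent.H42.GR.Lower3

/-!
Tensors: from spanning products of subspaces to ranks, and the lower bound by counting
parameters.
-/

namespace Pool.Agent.H95.GF

open MvPolynomial Pool.Agent.H42.TR

variable {n : ℕ}

/-- Spanning products of subspaces bound the rank of every tensor. -/
theorem rankLE_of_fill {s : ℕ} {m e r : Fin n → ℕ} (h : Fill n s m e) (her : ∀ i, e i ≤ r i)
    (hrm : ∀ i, r i ≤ m i) (T : Tens (fun i => Fin (m i))) :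
    RankLE (fun i => Fin (m i)) r s T := by
  classical
  obtain ⟨u, hu⟩ := h
  have hV : ∀ (t : Fin s) (i : Fin n), ∃ V' : Submodule ℂ (Fin (m i) → ℂ),
      Submodule.span ℂ (Set.range (u t i)) ≤ V' ∧ V' ≤ ⊤ ∧ Module.finrank ℂ V' = r i := by
    intro t i
    refine Pool.Agent.H42.GR.exists_between _ ⊤ le_top _ ?_ ?_
    · refine le_trans ?_ (her i)
      have := finrank_range_le_card (R := ℂ) (b := u t i)
      rwa [Fintype.card_fin] at this
    · rw [finrank_top, Module.finrank_fintype_fun_eq_card, Fintype.card_fin]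
      exact hrm i
  choose V' hV1 _ hV3 using hV
  set P : Fin s → Submodule ℂ (Tens (fun i => Fin (m i))) := fun t =>
    Submodule.span ℂ {x | ∃ v : (i : Fin n) → Fin (m i) → ℂ, (∀ i, v i ∈ V' t i) ∧ x = pureT v}
    with hP
  by_cases hmem : T ∈ ⨆ t, P t
  · rw [Submodule.mem_iSup_iff_exists_finsupp] at hmem
    obtain ⟨t, ht, hsum⟩ := hmem
    refine ⟨fun j => t j, fun j => ⟨V' j, hV3 j, ht j⟩, ?_⟩
    rw [← hsum, Finsupp.sum_fintype _ _ (fun _ => rfl)]
  · exfalso
    obtain ⟨φ, hφT, hφ⟩ := Submodule.exists_le_ker_of_notMem hmem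
    apply hφT
    have hrep : ∀ x : Tens (fun i => Fin (m i)), φ x = ∑ z, φ (Pi.single z 1) * x z := by
      intro x
      have h1 : x = ∑ z, x z • (Pi.single z 1 : Tens (fun i => Fin (m i))) := by
        funext w
        rw [Finset.sum_apply, Finset.sum_eq_single w]
        · rw [Pi.smul_apply, Pi.single_eq_same, smul_eq_mul, mul_one]
        · intro b _ hb
          rw [Pi.smul_apply, Pi.single_eq_of_ne (Ne.symm hb), smul_zero]
        · intro h3
          exact absurd (Finset.mem_univ _) h3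
      conv_lhs => rw [h1]
      rw [map_sum]
      refine Finset.sum_congr rfl fun z _ => ?_
      rw [map_smul, smul_eq_mul, mul_comm]
    have h0 : (fun z => φ (Pi.single z 1)) = (0 : ((i : Fin n) → Fin (m i)) → ℂ) := by
      apply hu
      rintro ⟨t, k⟩
      have h2 : φ (pureT fun i => u t i (k i)) = 0 := by
        apply hφ
        apply Submodule.mem_iSup_of_mem t
        apply Submodule.subset_span
        exact ⟨fun i => u t i (k i), fun i => hV1 t i (Submodule.subset_span ⟨k i, rfl⟩), rfl⟩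
      rw [hrep] at h2
      exact h2
    rw [hrep]
    refine Finset.sum_eq_zero fun z _ => ?_
    have h3 := congrFun h0 z
    simp only [Pi.zero_apply] at h3
    rw [h3, zero_mul]

/-- The tensor with given parameters. -/
noncomputable def Tpar {S : Type} [CommRing S] {m r : Fin n → ℕ}
    (a : (i : Fin n) → Fin (r i) → Fin (m i) → S) (q : ((i : Fin n) → Fin (r i)) → S)
    (w : (i : Fin n) → Fin (m i)) : S :=
  ∑ κ, q κ * ∏ i, a i (κ i) (w i)

theorem exists_Tpar {m r : Fin n → ℕ} {T : Tens (fun i => Fin (m i))}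
    (hT : InSub (fun i => Fin (m i)) r T) :
    ∃ (a : (i : Fin n) → Fin (r i) → Fin (m i) → ℂ) (q : ((i : Fin n) → Fin (r i)) → ℂ),
      T = Tpar a q := by
  classical
  obtain ⟨V', hr, hmem⟩ := hT
  have hb : ∀ i, ∃ b : Module.Basis (Fin (r i)) ℂ (V' i), True := fun i =>
    ⟨Module.finBasisOfFinrankEq ℂ (V' i) (hr i), trivial⟩
  choose b _ using hb
  refine ⟨fun i k => (b i k : Fin (m i) → ℂ), ?_⟩
  induction hmem using Submodule.span_induction with
  | mem x hx =>
    obtain ⟨v, hv, rfl⟩ := hx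
    refine ⟨fun κ => ∏ i, (b i).repr ⟨v i, hv i⟩ (κ i), ?_⟩
    funext w
    unfold pureT Tpar
    have h1 : ∀ i, v i (w i) = ∑ k, (b i).repr ⟨v i, hv i⟩ k * (b i k : Fin (m i) → ℂ) (w i) := by
      intro i
      have h2 := (b i).sum_repr ⟨v i, hv i⟩
      have h3 := congrArg (fun x : V' i => (x : Fin (m i) → ℂ) (w i)) h2
      simp only at h3
      rw [← h3, Submodule.coe_sum, Finset.sum_apply]
      refine Finset.sum_congr rfl fun k _ => ?_
      rw [Submodule.coe_smul, Pi.smul_apply, smul_eq_mul]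
    simp_rw [h1]
    rw [Finset.prod_univ_sum, Fintype.piFinset_univ]
    refine Finset.sum_congr rfl fun κ _ => ?_
    rw [Finset.prod_mul_distrib]
  | zero =>
    refine ⟨0, ?_⟩
    funext w
    simp [Tpar]
  | add x y _ _ hx hy =>
    obtain ⟨q, rfl⟩ := hx
    obtain ⟨q', rfl⟩ := hy
    refine ⟨q + q', ?_⟩
    funext w
    simp only [Tpar, Pi.add_apply, add_mul, Finset.sum_add_distrib]
  | smul c x _ hx =>
    obtain ⟨q, rfl⟩ := hx
    refine ⟨c • q, ?_⟩
    funext w
    simp only [Tpar, Pi.smul_apply, smul_eq_mul, Finset.mul_sum, mul_assoc]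

/-- Too few summands do not suffice generically. -/
theorem not_containsOpen_of_small {m r : Fin n → ℕ} {k : ℕ}
    (hk : k * (∏ i, r i + ∑ i, r i * m i) < ∏ i, m i) :
    ¬ ContainsOpen (fun i => Fin (m i)) {T | RankLE (fun i => Fin (m i)) r k T} := by
  classical
  set B : Type := Fin k × (((i : Fin n) → Fin (r i)) ⊕ (Σ i : Fin n, Fin (r i) × Fin (m i)))
    with hB
  have hcount : Fintype.card B < Fintype.card ((i : Fin n) → Fin (m i)) := by
    rw [Fintype.card_pi]
    simp only [Fintype.card_fin]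
    refine lt_of_eq_of_lt ?_ hk
    change Fintype.card (Fin k × (((i : Fin n) → Fin (r i)) ⊕
      (Σ i : Fin n, Fin (r i) × Fin (m i)))) = _
    rw [Fintype.card_prod, Fintype.card_sum, Fintype.card_pi, Fintype.card_sigma]
    simp only [Fintype.card_fin, Fintype.card_prod]
  obtain ⟨P, hP0, hP⟩ := Pool.Agent.H42.GR.exists_relation hcount
    (fun w : (i : Fin n) → Fin (m i) =>
      ∑ j : Fin k, Tpar (S := MvPolynomial B ℂ) (fun i l x => X (j, Sum.inr ⟨i, l, x⟩))
        (fun κ => X (j, Sum.inl κ)) w)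
  have van : ∀ T : Tens (fun i => Fin (m i)), RankLE (fun i => Fin (m i)) r k T →
      eval T P = 0 := by
    rintro T ⟨t, ht, rfl⟩
    choose a q haq using fun j => exists_Tpar (ht j)
    set y : B → ℂ := fun x => Sum.elim (fun κ => q x.1 κ)
      (fun p : Σ i : Fin n, Fin (r i) × Fin (m i) => a x.1 p.1 p.2.1 p.2.2) x.2 with hy
    have h2 : (∑ j, t j) = fun w => eval y (∑ j : Fin k, Tpar (S := MvPolynomial B ℂ)
        (fun i l x => X (j, Sum.inr ⟨i, l, x⟩)) (fun κ => X (j, Sum.inl κ)) w) := by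
      funext w
      rw [Finset.sum_apply, map_sum]
      refine Finset.sum_congr rfl fun j _ => ?_
      rw [haq j]
      unfold Tpar
      rw [map_sum]
      refine Finset.sum_congr rfl fun κ _ => ?_
      rw [map_mul, map_prod, eval_X]
      congr 1
      refine Finset.prod_congr rfl fun i _ => ?_
      rw [eval_X]
      rfl
    rw [h2, ← Pool.Agent.H42.GR.eval_aeval, hP, map_zero]
  rintro ⟨P', hP'0, hP'⟩
  have hprod : P' * P = 0 := by
    apply MvPolynomial.funext
    intro y
    rw [map_mul, map_zero]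
    by_cases h : eval y P' = 0
    · rw [h, zero_mul]
    · rw [van y (hP' y h), mul_zero]
  rcases mul_eq_zero.mp hprod with h | h
  · exact hP'0 h
  · exact hP0 h

theorem generic_of_bounds {m r : Fin n → ℕ} {s : ℕ}
    (hall : ∀ T : Tens (fun i => Fin (m i)), RankLE (fun i => Fin (m i)) r s T)
    (hlow : (s - 1) * (∏ i, r i + ∑ i, r i * m i) < ∏ i, m i) :
    IsGenericRank (fun i => Fin (m i)) r s := by
  refine ⟨⟨1, one_ne_zero, fun T _ => hall T⟩, ?_⟩
  intro k hk
  by_contra hlt
  rw [not_le] at hlt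
  refine not_containsOpen_of_small ?_ hk
  refine lt_of_le_of_lt ?_ hlow
  exact Nat.mul_le_mul_right _ (by omega)

end Pool.Agent.H95.GF
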